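import Mathlib
import Pool.Prelude.Def_F_057ad941

/-!
# Homogeneous powers (tools)

`cgOfGdelta`: in a compactum a G-delta point has a countable neighbourhood base.
`csb`: a topological Schroeder-Bernstein lemma.
`glue`: a zero-dimensional first countable compactum without isolated points all of whose
nonempty clopen subsets are homeomorphic to it is homogeneous.
`pow_homog`: the countable power of a totally disconnected first countable compactum with a
dense set of isolated points is homogeneous.
-/

open Set Topology Filter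

namespace HomC

theorem cgOfGdelta {X : Type*} [TopologicalSpace X] [CompactSpace X] [T2Space X] {x : X}
    (h : IsGδ ({x} : Set X)) : (𝓝 x).IsCountablyGenerated := by
  obtain ⟨U, hU, hx⟩ := h.eq_iInter_nat
  have hxU : ∀ n, x ∈ U n := by
    intro n
    have : x ∈ ⋂ n, U n := by rw [← hx]; rfl
    exact mem_iInter.1 this n
  have hV : ∀ n, ∃ V ∈ 𝓝 x, IsClosed V ∧ V ⊆ U n := by
    intro n
    exact exists_mem_nhds_isClosed_subset ((hU n).mem_nhds (hxU n))
  choose V hVn hVc hVU using hV
  let W : ℕ → Set X := fun n => ⋂ k ∈ Iic n, V k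
  have hWn : ∀ n, W n ∈ 𝓝 x := by
    intro n
    exact (biInter_mem (finite_Iic n)).2 (fun k _ => hVn k)
  have hWc : ∀ n, IsClosed (W n) := by
    intro n
    exact isClosed_biInter (fun k _ => hVc k)
  have hWa : Antitone W := by
    intro m n hmn
    exact biInter_subset_biInter_left (Iic_subset_Iic.2 hmn)
  have hWi : ∀ y ∈ ⋂ n, W n, y = x := by
    intro y hy
    have : y ∈ ⋂ n, U n := by
      refine mem_iInter.2 (fun n => hVU n ?_)
      have h1 := mem_iInter.1 hy n
      exact mem_iInter₂.1 h1 n (mem_Iic.2 le_rfl)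
    rw [← hx] at this
    exact this
  have hb : (𝓝 x).HasBasis (fun _ : ℕ => True) W := by
    refine ⟨fun t => ⟨fun ht => ?_, ?_⟩⟩
    · obtain ⟨i, hi⟩ := exists_subset_nhds_of_isCompact' (V := W) (directed_of_isDirected_le hWa)
        (fun i => (hWc i).isCompact) hWc (U := t) (fun y hy => by rw [hWi y hy]; exact ht)
      exact ⟨i, trivial, hi⟩
    · rintro ⟨i, -, hi⟩
      exact mem_of_superset (hWn i) hi
  exact hb.isCountablyGenerated

theorem firstCountable_of_gdelta {X : Type*} [TopologicalSpace X] [CompactSpace X] [T2Space X]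
    (h : ∀ x : X, IsGδ ({x} : Set X)) : FirstCountableTopology X :=
  ⟨fun x => cgOfGdelta (h x)⟩

/-- Topological Schroeder-Bernstein. -/
theorem csb {P : Type} [TopologicalSpace P] [CompactSpace P] [T2Space P] (C : Set P)
    (hC : IsClopen C) (j : P → P) (hj : Continuous j) (hinj : Function.Injective j)
    (hopen : IsOpen (range j)) (hsub : range j ⊆ C) (a : P)
    (hint : ∀ x, (∀ n : ℕ, x ∈ range (j^[n])) ↔ x = a) : Nonempty (P ≃ₜ C) := by
  classical
  have hemb : IsOpenEmbedding j :=
    ⟨(hj.isClosedEmbedding hinj).isEmbedding, hopen⟩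
  have hemb' : ∀ n, IsOpenEmbedding (j^[n]) := by
    intro n
    induction n with
    | zero => exact IsOpenEmbedding.id
    | succ n ih => exact ih.comp hemb
  have hcn : ∀ n, Continuous (j^[n]) := fun n => (hemb' n).continuous
  let U : Set P := ⋃ n : ℕ, j^[n] '' Cᶜ
  have hUopen : IsOpen U := by
    refine isOpen_iUnion (fun n => ?_)
    exact (hemb' n).isOpenMap _ hC.compl.isOpen
  have hjU : ∀ x, x ∈ U → j x ∈ U := by
    intro x hx
    obtain ⟨n, y, hy, rfl⟩ := mem_iUnion.1 hx
    refine mem_iUnion.2 ⟨n + 1, y, hy, ?_⟩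
    rw [Function.iterate_succ_apply']
  have hja : j a = a := by
    refine (hint (j a)).1 (fun n => ?_)
    have h1 : ∀ n : ℕ, a ∈ range (j^[n]) := (hint a).2 rfl
    obtain ⟨y, hy⟩ := h1 n
    refine ⟨j y, ?_⟩
    rw [← Function.iterate_succ_apply, Function.iterate_succ_apply', hy]
  let h : P → P := fun x => if x ∈ U then j x else x
  have hcont : Continuous h := by
    rw [continuous_iff_continuousAt]
    intro x
    by_cases hxU : x ∈ U
    · have : h =ᶠ[𝓝 x] j := by
        filter_upwards [hUopen.mem_nhds hxU] with y hy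
        simp only [h, if_pos hy]
      exact (hj.continuousAt).congr this.symm
    · by_cases hxa : x = a
      · subst hxa
        have hhx : h x = x := by simp only [h, if_neg hxU]
        rw [ContinuousAt, hhx]
        have h1 : Tendsto j (𝓝 x) (𝓝 x) := by
          have := hj.tendsto x
          rwa [hja] at this
        exact Tendsto.if' h1 tendsto_id
      · have h1 : ∃ n : ℕ, x ∉ range (j^[n]) := by
          by_contra hcon
          push Not at hcon
          exact hxa ((hint x).1 hcon)
        obtain ⟨n, hn⟩ := h1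
        have hcl : IsClosed (range (j^[n]) ∪ ⋃ k ∈ Iio n, j^[k] '' Cᶜ) := by
          refine IsClosed.union (isCompact_range (hcn n)).isClosed ?_
          refine (finite_Iio n).isClosed_biUnion (fun k _ => ?_)
          exact (hC.compl.isClosed.isCompact.image (hcn k)).isClosed
        have hxn : x ∉ (range (j^[n]) ∪ ⋃ k ∈ Iio n, j^[k] '' Cᶜ) := by
          rintro (h2 | h2)
          · exact hn h2
          · obtain ⟨k, _, h3⟩ := mem_iUnion₂.1 h2
            exact hxU (mem_iUnion.2 ⟨k, h3⟩)
        have hev : h =ᶠ[𝓝 x] id := by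
          filter_upwards [hcl.isOpen_compl.mem_nhds hxn] with y hy
          have hyU : y ∉ U := by
            intro hyU
            obtain ⟨k, z, hz, hzy⟩ := mem_iUnion.1 hyU
            apply hy
            by_cases hk : k < n
            · exact Or.inr (mem_iUnion₂.2 ⟨k, hk, z, hz, hzy⟩)
            · left
              obtain ⟨m, rfl⟩ := Nat.exists_eq_add_of_le (not_lt.1 hk)
              refine ⟨j^[m] z, ?_⟩
              rw [← Function.iterate_add_apply]
              exact hzy
          simp only [h, if_neg hyU, id]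
        exact continuousAt_id.congr hev.symm
  have hinjh : Function.Injective h := by
    intro x y hxy
    by_cases hx : x ∈ U <;> by_cases hy : y ∈ U
    · simp only [h, if_pos hx, if_pos hy] at hxy
      exact hinj hxy
    · simp only [h, if_pos hx, if_neg hy] at hxy
      exact absurd (hxy ▸ hjU x hx) hy
    · simp only [h, if_neg hx, if_pos hy] at hxy
      exact absurd (hxy ▸ hjU y hy) hx
    · simp only [h, if_neg hx, if_neg hy] at hxy
      exact hxy
  have hrange : range h = C := by
    apply Subset.antisymm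
    · rintro _ ⟨x, rfl⟩
      by_cases hx : x ∈ U
      · simp only [h, if_pos hx]
        exact hsub (mem_range_self x)
      · simp only [h, if_neg hx]
        by_contra hxC
        exact hx (mem_iUnion.2 ⟨0, x, hxC, rfl⟩)
    · intro y hy
      by_cases hyU : y ∈ U
      · obtain ⟨n, z, hz, hzy⟩ := mem_iUnion.1 hyU
        cases n with
        | zero =>
          simp only [Function.iterate_zero, id] at hzy
          exact absurd hy (hzy ▸ hz)
        | succ n =>
          rw [Function.iterate_succ_apply'] at hzy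
          refine ⟨j^[n] z, ?_⟩
          have : j^[n] z ∈ U := mem_iUnion.2 ⟨n, z, hz, rfl⟩
          simp only [h, if_pos this]
          exact hzy
      · exact ⟨y, by simp only [h, if_neg hyU]⟩
  have hce : IsEmbedding h := (hcont.isClosedEmbedding hinjh).isEmbedding
  exact ⟨hce.toHomeomorph.trans (Homeomorph.setCongr hrange)⟩

/-- Glueing: homogeneity from self-similarity of clopen sets. -/
theorem glue {P : Type} [TopologicalSpace P] [CompactSpace P] [T2Space P]
    [TotallyDisconnectedSpace P] [FirstCountableTopology P]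
    (hni : ∀ x : P, ¬ IsOpen ({x} : Set P))
    (hself : ∀ C : Set P, IsClopen C → C.Nonempty → Nonempty (P ≃ₜ C)) :
    N4f246296.HomogeneousSpace P := by
  classical
  have key : ∀ x : P, ∃ e : OnePoint ((n : ℕ) × P) ≃ₜ P, e OnePoint.infty = x := by
    intro x
    obtain ⟨B, hB⟩ := (𝓝 x).exists_antitone_basis
    have hstep : ∀ (n : ℕ) (C : Set P), IsClopen C → x ∈ C →
        ∃ C' : Set P, IsClopen C' ∧ x ∈ C' ∧ C' ⊆ C ∧ C' ⊆ B n ∧ (C \ C').Nonempty := by
      intro n C hC hxC
      have h1 : ∃ y ∈ C, y ≠ x := by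
        by_contra hcon
        push Not at hcon
        have : C = {x} := Subset.antisymm (fun y hy => hcon y hy) (singleton_subset_iff.2 hxC)
        exact hni x (this ▸ hC.isOpen)
      obtain ⟨y, hyC, hyx⟩ := h1
      have h2 : (C ∩ interior (B n)) ∩ {y}ᶜ ∈ 𝓝 x := by
        refine inter_mem (inter_mem (hC.isOpen.mem_nhds hxC) ?_) ?_
        · exact isOpen_interior.mem_nhds (mem_interior_iff_mem_nhds.2 (hB.mem n))
        · exact isOpen_compl_singleton.mem_nhds (fun h => hyx h.symm)
      obtain ⟨V, hVs, hVo, hxV⟩ := mem_nhds_iff.1 h2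
      obtain ⟨C', hC', hxC', hC'V⟩ := compact_exists_isClopen_in_isOpen hVo hxV
      refine ⟨C', hC', hxC', fun z hz => (hVs (hC'V hz)).1.1,
        fun z hz => interior_subset (hVs (hC'V hz)).1.2, ⟨y, hyC, fun hy => ?_⟩⟩
      exact (hVs (hC'V hy)).2 rfl
    choose! F hF1 hF2 hF3 hF4 hF5 using hstep
    let D : ℕ → Set P := fun n => Nat.rec univ (fun n C => F n C) n
    have hD0 : D 0 = univ := rfl
    have hDs : ∀ n, D (n + 1) = F n (D n) := fun n => rfl
    have hD : ∀ n, IsClopen (D n) ∧ x ∈ D n := by
      intro n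
      induction n with
      | zero => exact ⟨isClopen_univ, mem_univ x⟩
      | succ n ih =>
        rw [hDs]
        exact ⟨hF1 n _ ih.1 ih.2, hF2 n _ ih.1 ih.2⟩
    have hDsub : ∀ n, D (n + 1) ⊆ D n := by
      intro n
      rw [hDs]
      exact hF3 n _ (hD n).1 (hD n).2
    have hDB : ∀ n, D (n + 1) ⊆ B n := by
      intro n
      rw [hDs]
      exact hF4 n _ (hD n).1 (hD n).2
    have hDne : ∀ n, (D n \ D (n + 1)).Nonempty := by
      intro n
      rw [hDs]
      exact hF5 n _ (hD n).1 (hD n).2
    have hDa : Antitone D := antitone_nat_of_succ_le hDsub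
    have hdiff : ∀ n, IsClopen (D n \ D (n + 1)) := fun n => (hD n).1.diff (hD (n + 1)).1
    let e : ∀ n, P ≃ₜ ↥(D n \ D (n + 1)) := fun n => (hself _ (hdiff n) (hDne n)).some
    let g : ((n : ℕ) × P) → P := fun p => (e p.1 p.2 : P)
    have hgc : Continuous g := by
      refine continuous_sigma (fun n => ?_)
      exact continuous_subtype_val.comp (e n).continuous
    have hgo : IsOpenMap g := by
      rw [isOpenMap_sigma]
      intro n
      exact ((hdiff n).isOpen.isOpenMap_subtype_val).comp (e n).isOpenMap
    have hmem : ∀ (n : ℕ) (p : P), g ⟨n, p⟩ ∈ D n \ D (n + 1) := fun n p => (e n p).2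
    have huniq : ∀ (m n : ℕ) (y : P), y ∈ D m \ D (m + 1) → y ∈ D n \ D (n + 1) → m = n := by
      intro m n y hm hn
      rcases lt_trichotomy m n with hlt | heq | hgt
      · exact absurd (hDa (Nat.succ_le_of_lt hlt) hn.1) hm.2
      · exact heq
      · exact absurd (hDa (Nat.succ_le_of_lt hgt) hm.1) hn.2
    have hgi : Function.Injective g := by
      rintro ⟨m, p⟩ ⟨n, q⟩ hpq
      have h1 := hmem m p
      have h2 := hmem n q
      rw [← hpq] at h2
      have hmn : m = n := huniq m n _ h1 h2
      subst hmn
      have h3 : e m p = e m q := Subtype.ext hpq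
      rw [(e m).injective h3]
    have hgr : range g = {x}ᶜ := by
      apply Subset.antisymm
      · rintro _ ⟨⟨n, p⟩, rfl⟩ hx
        have := hmem n p
        rw [mem_singleton_iff.1 hx] at this
        exact this.2 (hD (n + 1)).2
      · intro y hy
        have h1 : ∃ n, y ∉ D n := by
          have h2 : {y}ᶜ ∈ 𝓝 x := isOpen_compl_singleton.mem_nhds (fun h => hy h.symm)
          obtain ⟨n, hn⟩ := hB.mem_iff.1 h2
          exact ⟨n + 1, fun h => hn (hDB n h) rfl⟩
        have h5 : ∃ n, y ∈ D n \ D (n + 1) := by
          by_contra hcon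
          push Not at hcon
          obtain ⟨m, hm⟩ := h1
          apply hm
          clear hm
          induction m with
          | zero => exact mem_univ y
          | succ m ih =>
            by_contra h6
            exact hcon m ⟨ih, h6⟩
        obtain ⟨n, hn⟩ := h5
        refine ⟨⟨n, (e n).symm ⟨y, hn⟩⟩, ?_⟩
        simp only [g, Homeomorph.apply_symm_apply]
    have hge : IsEmbedding g := (IsOpenEmbedding.of_continuous_injective_isOpenMap hgc hgi hgo).isEmbedding
    exact ⟨OnePoint.equivOfIsEmbeddingOfRangeEq x g hge hgr, rfl⟩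
  refine ⟨fun x y => ?_⟩
  obtain ⟨e, he⟩ := key x
  obtain ⟨e', he'⟩ := key y
  refine ⟨e.symm.trans e', ?_⟩
  rw [Homeomorph.trans_apply, ← he, Homeomorph.symm_apply_apply, he']

/-- Every nonempty clopen subset of the countable power of `A` is homeomorphic to the power. -/
theorem pow_clopen {A : Type} [TopologicalSpace A] [CompactSpace A] [T2Space A]
    (hd : Dense {a : A | IsOpen ({a} : Set A)}) (C : Set (ℕ → A))
    (hC : IsClopen C) (hne : C.Nonempty) : Nonempty ((ℕ → A) ≃ₜ C) := by
  classical
  obtain ⟨p, hp⟩ := hne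
  have h1 := isOpen_pi_iff.1 hC.isOpen p hp
  obtain ⟨I, u, hu, hIu⟩ := h1
  -- isolated points inside the box
  have h2 : ∀ i : ℕ, ∃ q : A, IsOpen ({q} : Set A) ∧ (i ∈ I → q ∈ u i) := by
    intro i
    by_cases hi : i ∈ I
    · obtain ⟨q, hq1, hq2⟩ := hd.exists_mem_open (hu i hi).1 ⟨p i, (hu i hi).2⟩
      exact ⟨q, hq1, fun _ => hq2⟩
    · obtain ⟨q, hq1, _⟩ := hd.exists_mem_open isOpen_univ ⟨p i, mem_univ _⟩
      exact ⟨q, hq1, fun h => absurd h hi⟩
  choose q hq hqI using h2
  obtain ⟨N, hN0, hN⟩ : ∃ N : ℕ, 0 < N ∧ ∀ i ∈ I, i < N := by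
    refine ⟨I.sup id + 1, Nat.succ_pos _, fun i hi => Nat.lt_succ_of_le ?_⟩
    exact Finset.le_sup (f := id) hi
  let j : (ℕ → A) → (ℕ → A) := fun z i => if i < N then q i else z (i - N)
  have hjlt : ∀ z i, i < N → j z i = q i := fun z i hi => if_pos hi
  have hjge : ∀ z i, N ≤ i → j z i = z (i - N) := fun z i hi => if_neg (not_lt.2 hi)
  have hj : Continuous j := by
    refine continuous_pi (fun i => ?_)
    by_cases hi : i < N
    · simp only [j, if_pos hi]
      exact continuous_const
    · simp only [j, if_neg hi]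
      exact continuous_apply _
  have hinj : Function.Injective j := by
    intro z w hzw
    funext i
    have h3 := congrFun hzw (i + N)
    rw [hjge _ _ (Nat.le_add_left N i), hjge _ _ (Nat.le_add_left N i), Nat.add_sub_cancel] at h3
    exact h3
  have hrange : range j = {z | ∀ i ∈ Iio N, z i ∈ ({q i} : Set A)} := by
    apply Subset.antisymm
    · rintro _ ⟨z, rfl⟩ i hi
      exact hjlt z i hi
    · intro z hz
      refine ⟨fun i => z (i + N), ?_⟩
      funext i
      by_cases hi : i < N
      · exact (hjlt (fun i => z (i + N)) i hi).trans (hz i hi).symm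
      · refine (hjge (fun i => z (i + N)) i (not_lt.1 hi)).trans ?_
        show z (i - N + N) = z i
        rw [Nat.sub_add_cancel (not_lt.1 hi)]
  have hopen : IsOpen (range j) := by
    have : range j = (Iio N).pi (fun i => ({q i} : Set A)) := by
      rw [hrange]
      rfl
    rw [this]
    exact isOpen_set_pi (finite_Iio N) (fun i _ => hq i)
  have hsub : range j ⊆ C := by
    rw [hrange]
    intro z hz
    apply hIu
    intro i hi
    have h4 := hz i (hN i hi)
    rw [mem_singleton_iff] at h4
    rw [h4]
    exact hqI i hi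
  let a : ℕ → A := fun i => q (i % N)
  have hja : j a = a := by
    funext i
    by_cases hi : i < N
    · rw [hjlt _ _ hi]
      show q i = q (i % N)
      rw [Nat.mod_eq_of_lt hi]
    · rw [hjge _ _ (not_lt.1 hi)]
      show q ((i - N) % N) = q (i % N)
      rw [← Nat.mod_eq_sub_mod (not_lt.1 hi)]
  have hit : ∀ (n : ℕ) (z : ℕ → A) (i : ℕ), i < n * N → (j^[n] z) i = a i := by
    intro n
    induction n with
    | zero =>
      intro z i hi
      rw [Nat.zero_mul] at hi
      exact absurd hi (Nat.not_lt_zero i)
    | succ n ih =>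
      intro z i hi
      rw [Function.iterate_succ_apply']
      by_cases hiN : i < N
      · rw [hjlt _ _ hiN]
        show q i = q (i % N)
        rw [Nat.mod_eq_of_lt hiN]
      · rw [hjge _ _ (not_lt.1 hiN), ih z (i - N) ?_]
        · show q ((i - N) % N) = q (i % N)
          rw [← Nat.mod_eq_sub_mod (not_lt.1 hiN)]
        · rw [Nat.succ_mul] at hi
          omega
  refine csb C hC j hj hinj hopen hsub a (fun x => ⟨fun hx => ?_, fun hx n => ?_⟩)
  · funext i
    obtain ⟨z, hz⟩ := hx (i + 1)
    rw [← hz]
    refine hit (i + 1) z i ?_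
    calc i < i + 1 := Nat.lt_succ_self i
      _ = (i + 1) * 1 := (Nat.mul_one _).symm
      _ ≤ (i + 1) * N := Nat.mul_le_mul_left _ hN0
  · subst hx
    exact ⟨a, Function.iterate_fixed hja n⟩

theorem pow_no_isolated {A : Type} [TopologicalSpace A] [Nontrivial A] (x : ℕ → A) :
    ¬ IsOpen ({x} : Set (ℕ → A)) := by
  classical
  intro h
  obtain ⟨I, u, hu, hIu⟩ := isOpen_pi_iff.1 h x rfl
  obtain ⟨n, hn⟩ := Infinite.exists_notMem_finset I
  obtain ⟨b, hb⟩ := exists_ne (x n)
  have h1 : Function.update x n b ∈ ({x} : Set (ℕ → A)) := by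
    apply hIu
    intro i hi
    have hin : i ≠ n := fun h => hn (h ▸ hi)
    rw [Function.update_of_ne hin]
    exact (hu i hi).2
  have h2 := congrFun (mem_singleton_iff.1 h1) n
  rw [Function.update_self] at h2
  exact hb h2

theorem pow_homog {A : Type} [TopologicalSpace A] [CompactSpace A] [T2Space A]
    [TotallyDisconnectedSpace A] [FirstCountableTopology A] [Nontrivial A]
    (hd : Dense {a : A | IsOpen ({a} : Set A)}) : N4f246296.HomogeneousSpace (ℕ → A) :=
  glue pow_no_isolated (fun C hC hne => pow_clopen hd C hC hne)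

end HomC
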