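import Pool.Agent.HomC.Dup

/-!
# Resolutions of binary closed covers

First countable compacta with a separating family of binary closed covers `F0 i ∪ F1 i = X` such
that every point lies in only countably many of the sets `F0 i ∩ F1 i` are continuous images of
first countable totally disconnected compacta.  This applies to first countable linearly ordered
compacta and to first countable Corson compacta.
-/

open Set Topology Filter

namespace HomC

theorem cover_main {X : Type} [TopologicalSpace X] [CompactSpace X] [T2Space X]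
    [FirstCountableTopology X] {I : Type} (F0 F1 : I → Set X) (h0 : ∀ i, IsClosed (F0 i))
    (h1 : ∀ i, IsClosed (F1 i)) (hcov : ∀ i x, x ∈ F0 i ∨ x ∈ F1 i)
    (hsep : ∀ x y, x ≠ y → ∃ i, ¬ (x ∈ F0 i ∧ y ∈ F0 i) ∧ ¬ (x ∈ F1 i ∧ y ∈ F1 i))
    (hpc : ∀ x, {i | x ∈ F0 i ∧ x ∈ F1 i}.Countable) : ZI X := by
  classical
  let Z : Set (X × (I → Bool)) :=
    {z | ∀ i, (z.2 i = false → z.1 ∈ F0 i) ∧ (z.2 i = true → z.1 ∈ F1 i)}
  have hdig : ∀ (i : I) (b : Bool), IsOpen {z : X × (I → Bool) | z.2 i = b} := by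
    intro i b
    have h1 : Continuous (fun z : X × (I → Bool) => z.2 i) :=
      (continuous_apply i).comp continuous_snd
    exact (isOpen_discrete ({b} : Set Bool)).preimage h1
  have hZc : IsClosed Z := by
    have : Z = ⋂ i : I, (({z : X × (I → Bool) | z.2 i = false}ᶜ ∪ Prod.fst ⁻¹' (F0 i)) ∩
        ({z : X × (I → Bool) | z.2 i = true}ᶜ ∪ Prod.fst ⁻¹' (F1 i))) := by
      ext z
      rw [mem_iInter]
      constructor
      · intro h i
        refine ⟨?_, ?_⟩
        · by_cases hz : z.2 i = false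
          · exact Or.inr ((h i).1 hz)
          · exact Or.inl hz
        · by_cases hz : z.2 i = true
          · exact Or.inr ((h i).2 hz)
          · exact Or.inl hz
      · intro h i
        refine ⟨fun hz => ?_, fun hz => ?_⟩
        · rcases (h i).1 with h1 | h1
          · exact absurd hz h1
          · exact h1
        · rcases (h i).2 with h1 | h1
          · exact absurd hz h1
          · exact h1
    rw [this]
    refine isClosed_iInter (fun i => ?_)
    exact ((hdig i false).isClosed_compl.union ((h0 i).preimage continuous_fst)).inter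
      ((hdig i true).isClosed_compl.union ((h1 i).preimage continuous_fst))
  have hZcomp : CompactSpace Z := isCompact_iff_compactSpace.1 hZc.isCompact
  have hinj : ∀ z w : Z, z.1.2 = w.1.2 → z = w := by
    intro z w h
    apply Subtype.ext
    refine Prod.ext ?_ h
    by_contra hne
    obtain ⟨i, hi0, hi1⟩ := hsep _ _ hne
    cases hb : z.1.2 i with
    | false =>
      have hb' : w.1.2 i = false := by rw [← h]; exact hb
      exact hi0 ⟨(z.2 i).1 hb, (w.2 i).1 hb'⟩
    | true =>
      have hb' : w.1.2 i = true := by rw [← h]; exact hb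
      exact hi1 ⟨(z.2 i).2 hb, (w.2 i).2 hb'⟩
  have htd : TotallyDisconnectedSpace Z := by
    refine ⟨fun t _ ht z hz w hw => ?_⟩
    have hcont : Continuous (fun z : Z => z.1.2) := continuous_snd.comp continuous_subtype_val
    apply hinj
    exact (ht.image _ hcont.continuousOn).subsingleton (mem_image_of_mem _ hz)
      (mem_image_of_mem _ hw)
  have hfc : FirstCountableTopology Z := by
    refine firstCountable_of_gdelta (fun z => ?_)
    have hfst : Continuous (fun w : Z => w.1.1) := continuous_fst.comp continuous_subtype_val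
    have hfib : ({z} : Set Z) = (fun w : Z => w.1.1) ⁻¹' {z.1.1} ∩
        ⋂ i ∈ {i | z.1.1 ∈ F0 i ∧ z.1.1 ∈ F1 i}, {w : Z | w.1.2 i = z.1.2 i} := by
      apply Subset.antisymm
      · intro w hw
        rw [mem_singleton_iff.1 hw]
        exact ⟨rfl, mem_iInter₂.2 (fun i _ => rfl)⟩
      · rintro w ⟨hw1, hw2⟩
        have hx : w.1.1 = z.1.1 := hw1
        refine mem_singleton_iff.2 (hinj w z (funext (fun i => ?_)))
        by_cases hi : z.1.1 ∈ F0 i ∧ z.1.1 ∈ F1 i
        · exact mem_iInter₂.1 hw2 i hi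
        · cases hb : z.1.2 i with
          | false =>
            cases hb' : w.1.2 i with
            | false => rfl
            | true => exact absurd ⟨(z.2 i).1 hb, hx ▸ (w.2 i).2 hb'⟩ hi
          | true =>
            cases hb' : w.1.2 i with
            | true => rfl
            | false => exact absurd ⟨hx ▸ (w.2 i).1 hb', (z.2 i).2 hb⟩ hi
    rw [hfib]
    refine ((IsGδ.singleton z.1.1).preimage hfst).inter ?_
    refine IsGδ.biInter_of_isOpen (hpc z.1.1) (fun i _ => ?_)
    exact (hdig i (z.1.2 i)).preimage continuous_subtype_val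
  refine ⟨Z, inferInstance, hZcomp, inferInstance, htd, hfc, fun z => z.1.1,
    continuous_fst.comp continuous_subtype_val, ?_⟩
  intro x
  refine ⟨⟨(x, fun i => if x ∈ F0 i then false else true), fun i => ⟨fun hi => ?_, fun hi => ?_⟩⟩,
    rfl⟩
  · by_contra hn
    have : (if x ∈ F0 i then false else true) = false := hi
    rw [if_neg hn] at this
    exact absurd this (by decide)
  · rcases hcov i x with h | h
    · have h2 : (if x ∈ F0 i then false else true) = true := hi
      rw [if_pos h] at h2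
      exact absurd h2 (by decide)
    · exact h

/-- First countable linearly ordered compacta. -/
theorem zi_lots {X : Type} [TopologicalSpace X] [CompactSpace X] [FirstCountableTopology X]
    [LinearOrder X] [OrderTopology X] : ZI X := by
  refine cover_main (I := X) (fun t => closure (Iio t)) (fun t => Ici t)
    (fun t => isClosed_closure) (fun t => isClosed_Ici) (fun t x => ?_) ?_ (fun x => ?_)
  · rcases lt_or_ge x t with h | h
    · exact Or.inl (subset_closure h)
    · exact Or.inr h
  · have hcl : ∀ t : X, closure (Iio t) ⊆ Iic t := fun t =>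
      closure_minimal (fun y hy => (mem_Iio.1 hy).le) isClosed_Iic
    have aux : ∀ x y : X, x < y → ∃ t, ¬ (x ∈ closure (Iio t) ∧ y ∈ closure (Iio t)) ∧
        ¬ (x ∈ Ici t ∧ y ∈ Ici t) := by
      intro x y hxy
      by_cases hy : y ∈ closure (Iio y)
      · obtain ⟨t, ht1, ht2⟩ := mem_closure_iff.1 hy (Ioi x) isOpen_Ioi hxy
        refine ⟨t, fun h => ?_, fun h => ?_⟩
        · exact absurd (hcl t h.2) (not_le.2 ht2)
        · exact absurd h.1 (not_le.2 ht1)
      · exact ⟨y, fun h => hy h.2, fun h => absurd h.1 (not_le.2 hxy)⟩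
    intro x y hne
    rcases lt_or_gt_of_ne hne with h | h
    · exact aux x y h
    · obtain ⟨t, h1, h2⟩ := aux y x h
      exact ⟨t, fun h => h1 h.symm, fun h => h2 h.symm⟩
  · refine Set.Countable.mono (s₂ := {x}) ?_ (countable_singleton x)
    rintro t ⟨h1, h2⟩
    have hcl : closure (Iio t) ⊆ Iic t :=
      closure_minimal (fun y hy => (mem_Iio.1 hy).le) isClosed_Iic
    exact le_antisymm h2 (hcl h1)

/-- First countable Corson compacta. -/
theorem zi_corson {X : Type} [TopologicalSpace X] [CompactSpace X] [T2Space X]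
    [FirstCountableTopology X] {Γ : Type} (φ : X → Γ → ℝ) (hφ : Continuous φ)
    (hinj : Function.Injective φ) (hc : ∀ x, {γ | φ x γ ≠ 0}.Countable) : ZI X := by
  have hφγ : ∀ γ, Continuous (fun x => φ x γ) := fun γ => (continuous_apply γ).comp hφ
  let I : Type := {p : Γ × (ℚ × ℚ) // p.2.1 < p.2.2 ∧ (0 < p.2.1 ∨ p.2.2 < 0)}
  refine cover_main (I := I) (fun p => {x | φ x p.1.1 ≤ (p.1.2.2 : ℝ)})
    (fun p => {x | (p.1.2.1 : ℝ) ≤ φ x p.1.1})
    (fun p => isClosed_le (hφγ _) continuous_const)
    (fun p => isClosed_le continuous_const (hφγ _)) (fun p x => ?_) ?_ (fun x => ?_)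
  · rcases le_total (φ x p.1.1) (p.1.2.2 : ℝ) with h | h
    · exact Or.inl h
    · right
      have h2 : (p.1.2.1 : ℝ) < (p.1.2.2 : ℝ) := by exact_mod_cast p.2.1
      exact h2.le.trans h
  · have aux : ∀ a b : ℝ, a < b → ∃ q : ℚ × ℚ, (q.1 < q.2 ∧ (0 < q.1 ∨ q.2 < 0)) ∧
        a < (q.1 : ℝ) ∧ (q.2 : ℝ) < b := by
      intro a b hab
      rcases lt_or_ge 0 b with hb | hb
      · obtain ⟨r, hr1, hr2⟩ := exists_rat_btwn (max_lt hab hb)
        obtain ⟨r', hr1', hr2'⟩ := exists_rat_btwn hr2
        refine ⟨(r, r'), ⟨by exact_mod_cast hr1', Or.inl ?_⟩, (max_lt_iff.1 hr1).1, hr2'⟩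
        exact_mod_cast (max_lt_iff.1 hr1).2
      · obtain ⟨r, hr1, hr2⟩ := exists_rat_btwn hab
        obtain ⟨r', hr1', hr2'⟩ := exists_rat_btwn hr2
        refine ⟨(r, r'), ⟨by exact_mod_cast hr1', Or.inr ?_⟩, hr1, hr2'⟩
        have h3 : (r' : ℝ) < 0 := hr2'.trans_le hb
        exact_mod_cast h3
    have aux2 : ∀ x y : X, ∀ γ, φ x γ < φ y γ → ∃ p : I,
        ¬ (x ∈ {x | φ x p.1.1 ≤ (p.1.2.2 : ℝ)} ∧ y ∈ {x | φ x p.1.1 ≤ (p.1.2.2 : ℝ)}) ∧
        ¬ (x ∈ {x | (p.1.2.1 : ℝ) ≤ φ x p.1.1} ∧ y ∈ {x | (p.1.2.1 : ℝ) ≤ φ x p.1.1}) := by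
      intro x y γ h
      obtain ⟨q, hq, hq1, hq2⟩ := aux _ _ h
      refine ⟨⟨(γ, q), hq⟩, fun h' => ?_, fun h' => ?_⟩
      · exact absurd h'.2 (not_le.2 hq2)
      · exact absurd h'.1 (not_le.2 hq1)
    intro x y hne
    have : ∃ γ, φ x γ ≠ φ y γ := by
      by_contra hcon
      push Not at hcon
      exact hne (hinj (funext hcon))
    obtain ⟨γ, hγ⟩ := this
    rcases lt_or_gt_of_ne hγ with h | h
    · exact aux2 x y γ h
    · obtain ⟨p, h1, h2⟩ := aux2 y x γ h
      exact ⟨p, fun h => h1 h.symm, fun h => h2 h.symm⟩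
  · have hcount : ({γ | φ x γ ≠ 0} ×ˢ (univ : Set (ℚ × ℚ))).Countable :=
      (hc x).prod countable_univ
    refine (hcount.preimage (f := fun p : I => p.1) Subtype.val_injective).mono ?_
    rintro p ⟨h1, h2⟩
    refine ⟨?_, mem_univ _⟩
    have h1' : φ x p.1.1 ≤ (p.1.2.2 : ℝ) := h1
    have h2' : (p.1.2.1 : ℝ) ≤ φ x p.1.1 := h2
    show φ x p.1.1 ≠ 0
    intro hz
    rw [hz] at h1' h2'
    rcases p.2.2 with h3 | h3
    · have h4 : (0 : ℝ) < (p.1.2.1 : ℝ) := by exact_mod_cast h3
      exact absurd h2' (not_le.2 h4)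
    · have h4 : (p.1.2.2 : ℝ) < 0 := by exact_mod_cast h3
      exact absurd h1' (not_le.2 h4)

end HomC
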