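import Pool.Agent.HomC.Basic

/-!
# Alexandroff duplicates and the classes `Hom` and `ZI`

Every first countable totally disconnected compactum is a continuous image of a homogeneous
compactum, namely of the countable power of its Alexandroff duplicate.
-/

open Set Topology Filter

namespace HomC

/-- `Z` with the discrete topology. -/
def Disc (Z : Type) : Type := Z

instance instTopDisc (Z : Type) : TopologicalSpace (Disc Z) := ⊥

instance instDiscDisc (Z : Type) : DiscreteTopology (Disc Z) := ⟨rfl⟩

/-- The point `z` of `Z` as a point of the discrete copy. -/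
def toDisc {Z : Type} (z : Z) : Disc Z := z

/-- The Alexandroff duplicate as a subset of `Z × OnePoint (Disc Z)`. -/
def dupSet (Z : Type) : Set (Z × OnePoint (Disc Z)) :=
  {p | p.2 = OnePoint.infty ∨ p.2 = OnePoint.some (toDisc p.1)}

theorem isOpen_coe {Z : Type} (d : Disc Z) :
    IsOpen ({(OnePoint.some d : OnePoint (Disc Z))} : Set (OnePoint (Disc Z))) := by
  have h := OnePoint.isOpenEmbedding_coe.isOpenMap _ (isOpen_discrete ({d} : Set (Disc Z)))
  rwa [image_singleton] at h

theorem dup_closed {Z : Type} [TopologicalSpace Z] [T2Space Z] : IsClosed (dupSet Z) := by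
  rw [← isOpen_compl_iff]
  have : (dupSet Z)ᶜ = ⋃ d : Disc Z, (Prod.fst ⁻¹' {z : Z | toDisc z = d}ᶜ) ∩
      (Prod.snd ⁻¹' {(OnePoint.some d : OnePoint (Disc Z))}) := by
    ext ⟨z, t⟩
    constructor
    · intro h
      induction t using OnePoint.rec with
      | infty => exact absurd (Or.inl rfl) h
      | coe d =>
        refine mem_iUnion.2 ⟨d, ?_, rfl⟩
        intro hd
        apply h
        right
        have : toDisc z = d := hd
        rw [this]
    · intro h
      obtain ⟨d, h1, h2⟩ := mem_iUnion.1 h
      rintro (h3 | h3)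
      · rw [mem_preimage, mem_singleton_iff] at h2
        rw [h2] at h3
        exact OnePoint.coe_ne_infty d h3
      · rw [mem_preimage, mem_singleton_iff] at h2
        rw [h2] at h3
        apply h1
        exact (OnePoint.coe_injective h3).symm
  rw [this]
  refine isOpen_iUnion (fun d => IsOpen.inter ?_ ?_)
  · have h1 : ({z : Z | toDisc z = d} : Set Z) = {(d : Z)} := rfl
    rw [h1]
    exact (isOpen_compl_singleton).preimage continuous_fst
  · exact (isOpen_coe d).preimage continuous_snd

theorem dup_good (Z : Type) [TopologicalSpace Z] [CompactSpace Z] [T2Space Z]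
    [TotallyDisconnectedSpace Z] [FirstCountableTopology Z] [Nonempty Z] :
    ∃ (A : Type) (_ : TopologicalSpace A), CompactSpace A ∧ T2Space A ∧
      TotallyDisconnectedSpace A ∧ FirstCountableTopology A ∧ Nontrivial A ∧
      Dense {a : A | IsOpen ({a} : Set A)} ∧
      (∃ f : A → Z, Continuous f ∧ Function.Surjective f) ∧
      (∃ m : A → OnePoint (Disc Z), Continuous m ∧ Function.Surjective m) := by
  classical
  have hc : CompactSpace (dupSet Z) := isCompact_iff_compactSpace.1 dup_closed.isCompact
  let inf : Z → dupSet Z := fun z => ⟨(z, OnePoint.infty), Or.inl rfl⟩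
  let pt : Z → dupSet Z := fun z => ⟨(z, OnePoint.some (toDisc z)), Or.inr rfl⟩
  have hcases : ∀ a : dupSet Z, a = inf a.1.1 ∨ a = pt a.1.1 := by
    rintro ⟨⟨z, t⟩, h | h⟩
    · left
      have h' : t = OnePoint.infty := h
      subst h'
      rfl
    · right
      have h' : t = OnePoint.some (toDisc z) := h
      subst h'
      rfl
  have hne : ∀ z w : Z, inf z ≠ pt w := by
    intro z w h
    have h1 : (OnePoint.infty : OnePoint (Disc Z)) = OnePoint.some (toDisc w) :=
      congrArg (fun a : dupSet Z => a.1.2) h
    exact OnePoint.infty_ne_coe _ h1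
  have hpr : Continuous (fun a : dupSet Z => a.1.1) := continuous_fst.comp continuous_subtype_val
  have hpt : ∀ z, IsOpen ({pt z} : Set (dupSet Z)) := by
    intro z
    have : ({pt z} : Set (dupSet Z)) = (fun a : dupSet Z => a.1.2) ⁻¹'
        {(OnePoint.some (toDisc z) : OnePoint (Disc Z))} := by
      ext a
      constructor
      · intro h
        rw [mem_singleton_iff.1 h]
        rfl
      · intro h
        rw [mem_preimage, mem_singleton_iff] at h
        rcases hcases a with h1 | h1
        · rw [h1] at h
          exact absurd h (OnePoint.infty_ne_coe _)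
        · rw [h1] at h
          have h2 : toDisc a.1.1 = toDisc z := OnePoint.coe_injective h
          have h3 : a.1.1 = z := h2
          rw [mem_singleton_iff, h1, h3]
    rw [this]
    exact (isOpen_coe _).preimage (continuous_snd.comp continuous_subtype_val)
  have hfc : FirstCountableTopology (dupSet Z) := by
    refine firstCountable_of_gdelta (fun a => ?_)
    rcases hcases a with h | h
    · have h1 : ({a} : Set (dupSet Z)) =
          (fun a : dupSet Z => a.1.1) ⁻¹' {a.1.1} ∩ {pt a.1.1}ᶜ := by
        ext b
        constructor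
        · intro hb
          rw [mem_singleton_iff.1 hb]
          refine ⟨rfl, fun h2 => ?_⟩
          rw [mem_singleton_iff] at h2
          exact hne _ _ (h.symm.trans h2)
        · rintro ⟨h2, h3⟩
          rw [mem_preimage, mem_singleton_iff] at h2
          rcases hcases b with h4 | h4
          · rw [mem_singleton_iff, h4, h2]
            exact h.symm
          · exfalso
            apply h3
            rw [mem_singleton_iff, h4, h2]
      rw [h1]
      exact ((IsGδ.singleton a.1.1).preimage hpr).inter isClosed_singleton.isOpen_compl.isGδ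
    · rw [h]
      exact (hpt _).isGδ
  have hnt : Nontrivial (dupSet Z) := by
    obtain ⟨z⟩ := (inferInstance : Nonempty Z)
    exact ⟨⟨inf z, pt z, hne z z⟩⟩
  have hm : ∃ m : dupSet Z → OnePoint (Disc Z), Continuous m ∧ Function.Surjective m := by
    refine ⟨fun a => a.1.2, continuous_snd.comp continuous_subtype_val, fun t => ?_⟩
    induction t using OnePoint.rec with
    | infty =>
      obtain ⟨z⟩ := (inferInstance : Nonempty Z)
      exact ⟨inf z, rfl⟩
    | coe d => exact ⟨pt d, rfl⟩
  refine ⟨dupSet Z, inferInstance, hc, inferInstance, inferInstance, hfc, hnt, ?_,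
    ⟨fun a => a.1.1, hpr, fun z => ⟨inf z, rfl⟩⟩, hm⟩
  intro a
  rw [mem_closure_iff]
  intro O hO haO
  rcases hcases a with h | h
  · -- a = inf z
    obtain ⟨z, hz⟩ : ∃ z, a = inf z := ⟨_, h⟩
    subst hz
    obtain ⟨O', hO', hOO'⟩ := isOpen_induced_iff.1 hO
    have h1 : (z, (OnePoint.infty : OnePoint (Disc Z))) ∈ O' := by
      have : inf z ∈ Subtype.val ⁻¹' O' := by rw [hOO']; exact haO
      exact this
    obtain ⟨U, V, hU, hV, hzU, hiV, hUV⟩ := isOpen_prod_iff.1 hO' _ _ h1
    have hfin : {d : Disc Z | (OnePoint.some d : OnePoint (Disc Z)) ∉ V}.Finite := by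
      have h2 := (OnePoint.isOpen_iff_of_mem hiV).1 hV
      have h3 := h2.2.finite_of_discrete
      exact h3
    by_cases hex : ∃ d ∈ U, (OnePoint.some (toDisc d) : OnePoint (Disc Z)) ∈ V
    · obtain ⟨d, hdU, hdV⟩ := hex
      refine ⟨pt d, ?_, hpt d⟩
      rw [← hOO']
      exact hUV ⟨hdU, hdV⟩
    · push Not at hex
      have hUf : U.Finite := hfin.subset (fun d hd => hex d hd)
      have hzo : IsOpen ({z} : Set Z) := by
        have h4 : ({z} : Set Z) = U ∩ (U \ {z})ᶜ := by
          ext w
          constructor
          · intro hw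
            rw [mem_singleton_iff.1 hw]
            exact ⟨hzU, fun h => h.2 rfl⟩
          · rintro ⟨h5, h6⟩
            by_contra h7
            exact h6 ⟨h5, h7⟩
        rw [h4]
        exact hU.inter (hUf.subset sdiff_subset).isClosed.isOpen_compl
      refine ⟨inf z, haO, ?_⟩
      have h8 : ({inf z} : Set (dupSet Z)) = (fun a : dupSet Z => a.1.1) ⁻¹' {z} ∩ {pt z}ᶜ := by
        ext b
        constructor
        · intro hb
          rw [mem_singleton_iff.1 hb]
          exact ⟨rfl, fun h2 => hne _ _ (mem_singleton_iff.1 h2)⟩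
        · rintro ⟨h2, h3⟩
          rw [mem_preimage, mem_singleton_iff] at h2
          rcases hcases b with h4 | h4
          · rw [mem_singleton_iff, h4, h2]
          · exfalso
            apply h3
            rw [mem_singleton_iff, h4, h2]
      show IsOpen ({inf z} : Set (dupSet Z))
      rw [h8]
      exact (hzo.preimage hpr).inter isClosed_singleton.isOpen_compl
  · exact ⟨a, haO, by rw [mem_ofPred_eq, h]; exact hpt _⟩

/-- `X` is a continuous image of a homogeneous compactum. -/
def Hom (X : Type) [TopologicalSpace X] : Prop :=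
  ∃ (Y : Type) (_ : TopologicalSpace Y), CompactSpace Y ∧ T2Space Y ∧
    N4f246296.HomogeneousSpace Y ∧ ∃ g : Y → X, Continuous g ∧ Function.Surjective g

/-- `X` is a continuous image of a first countable totally disconnected compactum. -/
def ZI (X : Type) [TopologicalSpace X] : Prop :=
  ∃ (Z : Type) (_ : TopologicalSpace Z), CompactSpace Z ∧ T2Space Z ∧
    TotallyDisconnectedSpace Z ∧ FirstCountableTopology Z ∧
    ∃ g : Z → X, Continuous g ∧ Function.Surjective g

theorem hom_of_zi {X : Type} [TopologicalSpace X] (h : ZI X) : Hom X := by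
  obtain ⟨Z, tZ, cZ, sZ, dZ, fZ, g, hg, hs⟩ := h
  rcases isEmpty_or_nonempty Z with he | hn
  · exact ⟨Z, tZ, cZ, sZ, ⟨fun x => (IsEmpty.false x).elim⟩, g, hg, hs⟩
  · obtain ⟨A, tA, cA, sA, dA, fA, nA, hd, ⟨f, hf, hfs⟩, _⟩ := dup_good Z
    refine ⟨ℕ → A, inferInstance, inferInstance, inferInstance, pow_homog hd,
      fun y => g (f (y 0)), hg.comp (hf.comp (continuous_apply 0)), ?_⟩
    intro x
    obtain ⟨z, rfl⟩ := hs x
    obtain ⟨a, rfl⟩ := hfs z
    exact ⟨fun _ => a, rfl⟩

/-- The one-point compactification of a discrete space of size `|Z|`. -/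
theorem zi_onePoint (Z : Type) [TopologicalSpace Z] [CompactSpace Z] [T2Space Z]
    [TotallyDisconnectedSpace Z] [FirstCountableTopology Z] [Nonempty Z] :
    ZI (OnePoint (Disc Z)) := by
  obtain ⟨A, tA, cA, sA, dA, fA, nA, hd, _, m, hm, hms⟩ := dup_good Z
  exact ⟨A, tA, cA, sA, dA, fA, m, hm, hms⟩

theorem hom_pi {ι : Type} {X : ι → Type} [∀ i, TopologicalSpace (X i)] (h : ∀ i, Hom (X i)) :
    Hom (∀ i, X i) := by
  choose Y tY cY sY hY g hg hs using h
  refine ⟨∀ i, Y i, inferInstance, inferInstance, inferInstance, ⟨fun x y => ?_⟩,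
    fun y i => g i (y i), continuous_pi (fun i => (hg i).comp (continuous_apply i)), ?_⟩
  · choose e he using fun i => (hY i).exists_equiv (x i) (y i)
    exact ⟨Homeomorph.piCongrRight e, funext he⟩
  · intro x
    choose y hy using fun i => hs i (x i)
    exact ⟨y, funext hy⟩

theorem hom_image {X X' : Type} [TopologicalSpace X] [TopologicalSpace X'] (h : Hom X)
    (f : X → X') (hf : Continuous f) (hs : Function.Surjective f) : Hom X' := by
  obtain ⟨Y, tY, cY, sY, hY, g, hg, hgs⟩ := h
  exact ⟨Y, tY, cY, sY, hY, f ∘ g, hf.comp hg, hs.comp hgs⟩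

theorem zi_self {X : Type} [TopologicalSpace X] [CompactSpace X] [T2Space X]
    [TotallyDisconnectedSpace X] [FirstCountableTopology X] : ZI X :=
  ⟨X, inferInstance, inferInstance, inferInstance, inferInstance, inferInstance, id,
    continuous_id, Function.surjective_id⟩

theorem zi_image {X X' : Type} [TopologicalSpace X] [TopologicalSpace X'] (h : ZI X)
    (f : X → X') (hf : Continuous f) (hs : Function.Surjective f) : ZI X' := by
  obtain ⟨Y, tY, cY, sY, hY, fY, g, hg, hgs⟩ := h
  exact ⟨Y, tY, cY, sY, hY, fY, f ∘ g, hf.comp hg, hs.comp hgs⟩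

theorem zi_pi {X : ℕ → Type} [∀ i, TopologicalSpace (X i)] (h : ∀ i, ZI (X i)) :
    ZI (∀ i, X i) := by
  choose Y tY cY sY hY fY g hg hs using h
  refine ⟨∀ i, Y i, inferInstance, inferInstance, inferInstance, inferInstance, inferInstance,
    fun y i => g i (y i), continuous_pi (fun i => (hg i).comp (continuous_apply i)), ?_⟩
  intro x
  choose y hy using fun i => hs i (x i)
  exact ⟨y, funext hy⟩

theorem zi_closed {X K : Type} [TopologicalSpace X] [TopologicalSpace K] (h : ZI X)
    (f : K → X) (hf : IsClosedEmbedding f) : ZI K := by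
  obtain ⟨Y, tY, cY, sY, hY, fY, g, hg, hgs⟩ := h
  let S : Set Y := g ⁻¹' (range f)
  have hS : IsClosed S := hf.isClosed_range.preimage hg
  have hSc : CompactSpace S := isCompact_iff_compactSpace.1 hS.isCompact
  let e : K ≃ₜ range f := hf.isEmbedding.toHomeomorph
  refine ⟨S, inferInstance, hSc, inferInstance, inferInstance, inferInstance,
    fun y => e.symm ⟨g y.1, y.2⟩, ?_, ?_⟩
  · exact e.symm.continuous.comp ((hg.comp continuous_subtype_val).subtype_mk _)
  · intro k
    obtain ⟨y, hy⟩ := hgs (f k)
    refine ⟨⟨y, ⟨k, hy.symm⟩⟩, ?_⟩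
    rw [Homeomorph.symm_apply_eq]
    apply Subtype.ext
    exact hy

end HomC
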