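import Pool.Agent.HomC.Dup

/-!
# First countable compacta of weight at most aleph one

Every first countable compactum with a base of size at most `ℵ₁` is a continuous image of a
totally disconnected first countable compactum.
-/

open Set Topology Filter

namespace HomC

/-- Pairs `r < r'` of rational numbers. -/
abbrev QP : Type := {s : ℚ × ℚ // s.1 < s.2}

/-- Digits. -/
abbrev Dig : Type := QP → Bool

theorem reduction {M : Type} [TopologicalSpace M] [CompactSpace M] [T2Space M]
    [TotallyDisconnectedSpace M] [SecondCountableTopology M] (O0 O1 : Set M)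
    (h0 : IsOpen O0) (h1 : IsOpen O1) :
    ∃ V : Set M × Set M, IsOpen V.1 ∧ IsOpen V.2 ∧ V.1 ⊆ O0 ∧ V.2 ⊆ O1 ∧
      (∀ y, y ∈ V.1 → y ∉ V.2) ∧ (∀ y, y ∈ O0 ∨ y ∈ O1 → y ∈ V.1 ∨ y ∈ V.2) := by
  classical
  let ι := {C : Set M // IsClopen C ∧ (C ⊆ O0 ∨ C ⊆ O1)}
  obtain ⟨T, hT, hTu⟩ := TopologicalSpace.isOpen_iUnion_countable (fun i : ι => i.1)
    (fun i => i.2.1.isOpen)
  have hcov : ∀ y, y ∈ O0 ∨ y ∈ O1 → ∃ i ∈ T, y ∈ i.1 := by
    intro y hy
    have h2 : y ∈ ⋃ i : ι, i.1 := by
      rcases hy with hy | hy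
      · obtain ⟨C, hC, hyC, hCO⟩ := compact_exists_isClopen_in_isOpen h0 hy
        exact mem_iUnion.2 ⟨⟨C, hC, Or.inl hCO⟩, hyC⟩
      · obtain ⟨C, hC, hyC, hCO⟩ := compact_exists_isClopen_in_isOpen h1 hy
        exact mem_iUnion.2 ⟨⟨C, hC, Or.inr hCO⟩, hyC⟩
    rw [← hTu] at h2
    obtain ⟨i, hi, hyi⟩ := mem_iUnion₂.1 h2
    exact ⟨i, hi, hyi⟩
  rcases T.eq_empty_or_nonempty with hTe | hTn
  · refine ⟨(∅, ∅), isOpen_empty, isOpen_empty, empty_subset _, empty_subset _,
      fun y hy => absurd hy (notMem_empty y), fun y hy => ?_⟩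
    obtain ⟨i, hi, _⟩ := hcov y hy
    rw [hTe] at hi
    exact absurd hi (notMem_empty i)
  · obtain ⟨g, hg⟩ := hT.exists_eq_range hTn
    let B : ℕ → Set M := fun n => (g n).1
    have hBc : ∀ n, IsClopen (B n) := fun n => (g n).2.1
    let W : ℕ → Set M := fun n => B n ∩ ⋂ k ∈ Iio n, (B k)ᶜ
    have hWo : ∀ n, IsOpen (W n) := by
      intro n
      refine (hBc n).isOpen.inter ?_
      exact (finite_Iio n).isOpen_biInter (fun k _ => (hBc k).compl.isOpen)
    have hWdis : ∀ m n y, y ∈ W m → y ∈ W n → m = n := by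
      intro m n y hm hn
      rcases lt_trichotomy m n with h | h | h
      · exact absurd hm.1 (mem_iInter₂.1 hn.2 m h)
      · exact h
      · exact absurd hn.1 (mem_iInter₂.1 hm.2 n h)
    refine ⟨(⋃ n ∈ {n | B n ⊆ O0}, W n, ⋃ n ∈ {n | ¬ B n ⊆ O0}, W n),
      isOpen_biUnion (fun n _ => hWo n), isOpen_biUnion (fun n _ => hWo n), ?_, ?_, ?_, ?_⟩
    · refine iUnion₂_subset (fun n hn => ?_)
      exact fun y hy => hn hy.1
    · refine iUnion₂_subset (fun n hn => ?_)
      intro y hy
      rcases (g n).2.2 with h | h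
      · exact absurd h hn
      · exact h hy.1
    · intro y hy hy'
      obtain ⟨n, hn, hyn⟩ := mem_iUnion₂.1 hy
      obtain ⟨m, hm, hym⟩ := mem_iUnion₂.1 hy'
      have := hWdis n m y hyn hym
      subst this
      exact hm hn
    · intro y hy
      obtain ⟨i, hi, hyi⟩ := hcov y hy
      rw [hg] at hi
      obtain ⟨n, rfl⟩ := hi
      have hex : ∃ n, y ∈ B n := ⟨n, hyi⟩
      have h3 := Nat.find_spec hex
      have h4 : y ∈ W (Nat.find hex) := by
        refine ⟨h3, mem_iInter₂.2 (fun k hk => ?_)⟩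
        exact Nat.find_min hex hk
      by_cases h5 : B (Nat.find hex) ⊆ O0
      · left
        exact mem_iUnion₂.2 ⟨_, h5, h4⟩
      · right
        exact mem_iUnion₂.2 ⟨_, h5, h4⟩

section Construction

variable {X Ω : Type} [TopologicalSpace X] [LinearOrder Ω]

/-- Restriction of a digit sequence to an initial segment. -/
def res (α : Ω) (e : Ω → Dig) : Iio α → Dig := fun β => e β.1

theorem res_cont (α : Ω) : Continuous (res α) :=
  continuous_pi (fun β => continuous_apply β.1)

/-- Digit strings which force `u < r'`. -/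
def OO0 (u : X → ℝ) (α : Ω) (W : Set (X × (Ω → Dig))) (s : QP) : Set (Iio α → Dig) :=
  {m | ∀ z ∈ W, res α z.2 = m → u z.1 < (s.1.2 : ℝ)}

/-- Digit strings which force `r < u`. -/
def OO1 (u : X → ℝ) (α : Ω) (W : Set (X × (Ω → Dig))) (s : QP) : Set (Iio α → Dig) :=
  {m | ∀ z ∈ W, res α z.2 = m → (s.1.1 : ℝ) < u z.1}

/-- The property of a reduction of a pair of open sets. -/
def IsRed {M : Type} [TopologicalSpace M] (O0 O1 : Set M) (V : Set M × Set M) : Prop :=
  IsOpen V.1 ∧ IsOpen V.2 ∧ V.1 ⊆ O0 ∧ V.2 ⊆ O1 ∧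
      (∀ y, y ∈ V.1 → y ∉ V.2) ∧ (∀ y, y ∈ O0 ∨ y ∈ O1 → y ∈ V.1 ∨ y ∈ V.2)

open Classical in
/-- A chosen reduction. -/
noncomputable def red {M : Type} [TopologicalSpace M] (O0 O1 : Set M) : Set M × Set M :=
  if h : ∃ V : Set M × Set M, IsRed O0 O1 V then h.choose else (∅, ∅)

theorem red_spec {M : Type} [TopologicalSpace M] (O0 O1 : Set M)
    (h : ∃ V : Set M × Set M, IsRed O0 O1 V) : IsRed O0 O1 (red O0 O1) := by
  unfold red
  rw [dif_pos h]
  exact h.choose_spec

/-- The constraint at stage `α`. -/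
def stepC (f : Ω → X → ℝ) (α : Ω) (W : Set (X × (Ω → Dig))) : Set (X × (Ω → Dig)) :=
  {z | ∀ s : QP,
    (z.2 α s = false → res α z.2 ∉ (red (OO0 (f α) α W s) (OO1 (f α) α W s)).2 ∧
      f α z.1 ≤ (s.1.2 : ℝ)) ∧
    (z.2 α s = true → res α z.2 ∉ (red (OO0 (f α) α W s) (OO1 (f α) α W s)).1 ∧
      (s.1.1 : ℝ) ≤ f α z.1)}

theorem exists_C [WellFoundedLT Ω] (f : Ω → X → ℝ) :
    ∃ C : Ω → Set (X × (Ω → Dig)), ∀ α, C α = stepC f α (⋂ β ∈ Iio α, C β) := by
  let F : ∀ α : Ω, (∀ β, β < α → Set (X × (Ω → Dig))) → Set (X × (Ω → Dig)) :=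
    fun α c => stepC f α (⋂ β, ⋂ h : β < α, c β h)
  refine ⟨IsWellFounded.fix (· < ·) F, fun α => ?_⟩
  rw [IsWellFounded.fix_eq]
  rfl

theorem exists_e [WellFoundedLT Ω] (G : ∀ α : Ω, (Iio α → Dig) → Dig) :
    ∃ e : Ω → Dig, ∀ α, e α = G α (res α e) := by
  let F : ∀ α : Ω, (∀ β, β < α → Dig) → Dig := fun α c => G α (fun β => c β.1 β.2)
  refine ⟨IsWellFounded.fix (· < ·) F, fun α => ?_⟩
  rw [IsWellFounded.fix_eq]
  rfl

theorem dig_det {u v : ℝ} {d : Dig} (hu0 : ∀ s : QP, d s = false → u ≤ (s.1.2 : ℝ))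
    (hu1 : ∀ s : QP, d s = true → (s.1.1 : ℝ) ≤ u)
    (hv0 : ∀ s : QP, d s = false → v ≤ (s.1.2 : ℝ))
    (hv1 : ∀ s : QP, d s = true → (s.1.1 : ℝ) ≤ v) : u = v := by
  have aux : ∀ a b : ℝ, (∀ s : QP, d s = true → (s.1.1 : ℝ) ≤ a) →
      (∀ s : QP, d s = false → b ≤ (s.1.2 : ℝ)) → ¬ a < b := by
    intro a b h1 h0 hab
    obtain ⟨r, hr1, hr2⟩ := exists_rat_btwn hab
    obtain ⟨r', hr1', hr2'⟩ := exists_rat_btwn hr2
    have hrr : r < r' := by exact_mod_cast hr1'
    cases hd : d ⟨(r, r'), hrr⟩ with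
    | false =>
      have := h0 _ hd
      exact absurd this (not_le.2 hr2')
    | true =>
      have := h1 _ hd
      exact absurd this (not_le.2 hr1)
  rcases lt_trichotomy u v with h | h | h
  · exact absurd h (aux u v hu1 hv0)
  · exact h
  · exact absurd h (aux v u hv1 hu0)

variable [CompactSpace X] [T2Space X]

theorem oo0_open (u : X → ℝ) (hu : Continuous u) (α : Ω) (W : Set (X × (Ω → Dig)))
    (hW : IsClosed W) (s : QP) : IsOpen (OO0 u α W s) := by
  rw [← isClosed_compl_iff]
  have : (OO0 u α W s)ᶜ = (fun z : X × (Ω → Dig) => res α z.2) ''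
      (W ∩ {z | (s.1.2 : ℝ) ≤ u z.1}) := by
    ext m
    constructor
    · intro hm
      by_contra hcon
      apply hm
      intro z hz hzm
      by_contra hlt
      exact hcon ⟨z, ⟨hz, not_lt.1 hlt⟩, hzm⟩
    · rintro ⟨z, ⟨hz, hle⟩, hzm⟩ hm
      exact absurd (hm z hz hzm) (not_lt.2 hle)
  rw [this]
  have hcl : IsClosed (W ∩ {z : X × (Ω → Dig) | (s.1.2 : ℝ) ≤ u z.1}) :=
    hW.inter (isClosed_le continuous_const (hu.comp continuous_fst))
  exact (hcl.isCompact.image ((res_cont α).comp continuous_snd)).isClosed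

theorem oo1_open (u : X → ℝ) (hu : Continuous u) (α : Ω) (W : Set (X × (Ω → Dig)))
    (hW : IsClosed W) (s : QP) : IsOpen (OO1 u α W s) := by
  rw [← isClosed_compl_iff]
  have : (OO1 u α W s)ᶜ = (fun z : X × (Ω → Dig) => res α z.2) ''
      (W ∩ {z | u z.1 ≤ (s.1.1 : ℝ)}) := by
    ext m
    constructor
    · intro hm
      by_contra hcon
      apply hm
      intro z hz hzm
      by_contra hlt
      exact hcon ⟨z, ⟨hz, not_lt.1 hlt⟩, hzm⟩
    · rintro ⟨z, ⟨hz, hle⟩, hzm⟩ hm
      exact absurd (hm z hz hzm) (not_lt.2 hle)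
  rw [this]
  have hcl : IsClosed (W ∩ {z : X × (Ω → Dig) | u z.1 ≤ (s.1.1 : ℝ)}) :=
    hW.inter (isClosed_le (hu.comp continuous_fst) continuous_const)
  exact (hcl.isCompact.image ((res_cont α).comp continuous_snd)).isClosed

theorem red_good (hΩ : ∀ α : Ω, (Iio α).Countable) (u : X → ℝ) (hu : Continuous u) (α : Ω)
    (W : Set (X × (Ω → Dig))) (hW : IsClosed W) (s : QP) :
    IsRed (OO0 u α W s) (OO1 u α W s) (red (OO0 u α W s) (OO1 u α W s)) := by
  have : Countable (Iio α) := (hΩ α).to_subtype
  exact red_spec _ _ (reduction _ _ (oo0_open u hu α W hW s) (oo1_open u hu α W hW s))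

theorem stepC_closed (hΩ : ∀ α : Ω, (Iio α).Countable) (f : Ω → X → ℝ)
    (hf : ∀ α, Continuous (f α)) (α : Ω) (W : Set (X × (Ω → Dig))) (hW : IsClosed W) :
    IsClosed (stepC f α W) := by
  have hdig : ∀ (s : QP) (b : Bool), IsOpen {z : X × (Ω → Dig) | z.2 α s = b} := by
    intro s b
    have h1 : Continuous (fun z : X × (Ω → Dig) => z.2 α s) :=
      (continuous_apply s).comp ((continuous_apply α).comp continuous_snd)
    exact (isOpen_discrete ({b} : Set Bool)).preimage h1
  have hres : Continuous (fun z : X × (Ω → Dig) => res α z.2) :=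
    (res_cont α).comp continuous_snd
  have : stepC f α W = ⋂ s : QP,
      (({z | z.2 α s = false}ᶜ ∪ ((fun z => res α z.2) ⁻¹'
        ((red (OO0 (f α) α W s) (OO1 (f α) α W s)).2)ᶜ ∩ {z | f α z.1 ≤ (s.1.2 : ℝ)})) ∩
      ({z | z.2 α s = true}ᶜ ∪ ((fun z => res α z.2) ⁻¹'
        ((red (OO0 (f α) α W s) (OO1 (f α) α W s)).1)ᶜ ∩ {z | (s.1.1 : ℝ) ≤ f α z.1}))) := by
    ext z
    rw [mem_iInter]
    constructor
    · intro h s
      refine ⟨?_, ?_⟩
      · by_cases hz : z.2 α s = false
        · exact Or.inr ((h s).1 hz)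
        · exact Or.inl hz
      · by_cases hz : z.2 α s = true
        · exact Or.inr ((h s).2 hz)
        · exact Or.inl hz
    · intro h s
      refine ⟨fun hz => ?_, fun hz => ?_⟩
      · rcases (h s).1 with h1 | h1
        · exact absurd hz h1
        · exact h1
      · rcases (h s).2 with h1 | h1
        · exact absurd hz h1
        · exact h1
  rw [this]
  refine isClosed_iInter (fun s => ?_)
  have hr := red_good hΩ (f α) (hf α) α W hW s
  refine IsClosed.inter (IsClosed.union ?_ (IsClosed.inter ?_ ?_))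
    (IsClosed.union ?_ (IsClosed.inter ?_ ?_))
  · exact (hdig s false).isClosed_compl
  · exact hr.2.1.isClosed_compl.preimage hres
  · exact isClosed_le ((hf α).comp continuous_fst) continuous_const
  · exact (hdig s true).isClosed_compl
  · exact hr.1.isClosed_compl.preimage hres
  · exact isClosed_le continuous_const ((hf α).comp continuous_fst)

end Construction

theorem omega_main {X : Type} [TopologicalSpace X] [CompactSpace X] [T2Space X]
    [FirstCountableTopology X] {Ω : Type} [LinearOrder Ω] [WellFoundedLT Ω]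
    (hΩ : ∀ α : Ω, (Iio α).Countable) (f : Ω → X → ℝ) (hf : ∀ α, Continuous (f α))
    (hsep : ∀ x y, (∀ α, f α x = f α y) → x = y) : ZI X := by
  classical
  obtain ⟨C, hC⟩ := exists_C f
  have hCc : ∀ α, IsClosed (C α) := by
    intro α
    induction α using WellFoundedLT.induction with
    | ind α ih =>
      rw [hC α]
      exact stepC_closed hΩ f hf α _ (isClosed_biInter (fun β hβ => ih β hβ))
  have hWc : ∀ α, IsClosed (⋂ β ∈ Iio α, C β) := fun α => isClosed_biInter (fun β _ => hCc β)
  -- abbreviations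
  have hR : ∀ α s, IsRed (OO0 (f α) α (⋂ β ∈ Iio α, C β) s) (OO1 (f α) α (⋂ β ∈ Iio α, C β) s)
      (red (OO0 (f α) α (⋂ β ∈ Iio α, C β) s) (OO1 (f α) α (⋂ β ∈ Iio α, C β) s)) :=
    fun α s => red_good hΩ (f α) (hf α) α _ (hWc α) s
  have hdet : ∀ (α : Ω) (z w : X × (Ω → Dig)), z ∈ C α → w ∈ C α → z.2 α = w.2 α →
      f α z.1 = f α w.1 := by
    intro α z w hz hw hzw
    rw [hC α] at hz hw
    refine dig_det (d := z.2 α) (fun s hs => ((hz s).1 hs).2) (fun s hs => ((hz s).2 hs).2)
      (fun s hs => ((hw s).1 ?_).2) (fun s hs => ((hw s).2 ?_).2)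
    · rw [← hzw]; exact hs
    · rw [← hzw]; exact hs
  let Z : Set (X × (Ω → Dig)) := ⋂ α, C α
  have hZc : IsClosed Z := isClosed_iInter hCc
  have hZcomp : CompactSpace Z := isCompact_iff_compactSpace.1 hZc.isCompact
  have hZmem : ∀ z : Z, ∀ α, z.1 ∈ C α := fun z α => mem_iInter.1 z.2 α
  have hinj : ∀ z w : Z, z.1.2 = w.1.2 → z = w := by
    intro z w h
    apply Subtype.ext
    refine Prod.ext ?_ h
    exact hsep _ _ (fun α => hdet α z.1 w.1 (hZmem z α) (hZmem w α) (congrFun h α))
  have htd : TotallyDisconnectedSpace Z := by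
    refine ⟨fun t _ ht z hz w hw => ?_⟩
    have hcont : Continuous (fun z : Z => z.1.2) := continuous_snd.comp continuous_subtype_val
    apply hinj
    exact (ht.image _ hcont.continuousOn).subsingleton (mem_image_of_mem _ hz)
      (mem_image_of_mem _ hw)
  have hfc : FirstCountableTopology Z := by
    refine firstCountable_of_gdelta (fun z => ?_)
    -- countable separating set for `z.1.1`
    obtain ⟨A, hA, hAsep⟩ : ∃ A : Set Ω, A.Countable ∧
        ∀ y, (∀ β ∈ A, f β y = f β z.1.1) → y = z.1.1 := by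
      obtain ⟨U, hU, hUx⟩ := (IsGδ.singleton z.1.1).eq_iInter_nat
      have hfin : ∀ n, ∃ t : Finset Ω, (U n)ᶜ ⊆ ⋃ β ∈ t, {y | f β y ≠ f β z.1.1} := by
        intro n
        refine (hU n).isClosed_compl.isCompact.elim_finite_subcover
          (fun β => {y | f β y ≠ f β z.1.1}) (fun β => ?_) ?_
        · exact isOpen_ne_fun (hf β) continuous_const
        · intro y hy
          by_contra hcon
          have : y = z.1.1 := by
            apply hsep
            intro α
            by_contra hne
            exact hcon (mem_iUnion.2 ⟨α, hne⟩)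
          apply hy
          have h1 : z.1.1 ∈ ⋂ n, U n := by rw [← hUx]; rfl
          rw [this]
          exact mem_iInter.1 h1 n
      choose t ht using hfin
      refine ⟨⋃ n, (t n : Set Ω), countable_iUnion (fun n => (t n).countable_toSet), ?_⟩
      intro y hy
      by_contra hne
      have h2 : y ∉ ⋂ n, U n := by rw [← hUx]; exact hne
      rw [mem_iInter] at h2
      push Not at h2
      obtain ⟨n, hn⟩ := h2
      obtain ⟨β, hβ, hβy⟩ := mem_iUnion₂.1 (ht n hn)
      exact hβy (hy β (mem_iUnion.2 ⟨n, hβ⟩))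
    let A' : Set Ω := ⋃ β ∈ A, Iic β
    have hA'c : A'.Countable := by
      refine hA.biUnion (fun β _ => ?_)
      rw [← Iio_union_right]
      exact (hΩ β).union (countable_singleton β)
    have hAA' : A ⊆ A' := fun β hβ => mem_iUnion₂.2 ⟨β, hβ, le_rfl⟩
    have hdown : ∀ α ∉ A', ∀ β ∈ A', β < α := by
      intro α hα β hβ
      by_contra hlt
      obtain ⟨γ, hγ, hβγ⟩ := mem_iUnion₂.1 hβ
      exact hα (mem_iUnion₂.2 ⟨γ, hγ, (not_lt.1 hlt).trans hβγ⟩)
    have hA'ct : Countable A' := hA'c.to_subtype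
    let ρ : Z → (A' → Dig) := fun w β => w.1.2 β.1
    have hρ : Continuous ρ := continuous_pi (fun β =>
      (continuous_apply β.1).comp (continuous_snd.comp continuous_subtype_val))
    have hfib : ({z} : Set Z) = ρ ⁻¹' {ρ z} := by
      apply Subset.antisymm
      · intro w hw
        rw [mem_singleton_iff.1 hw]
        rfl
      · intro w hw
        have hw' : ∀ β ∈ A', w.1.2 β = z.1.2 β := fun β hβ => congrFun hw ⟨β, hβ⟩
        have hx : w.1.1 = z.1.1 :=
          hAsep _ (fun β hβ => hdet β w.1 z.1 (hZmem w β) (hZmem z β) (hw' β (hAA' hβ)))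
        have he : ∀ α, w.1.2 α = z.1.2 α := by
          intro α
          induction α using WellFoundedLT.induction with
          | ind α ih =>
            by_cases hα : α ∈ A'
            · exact hw' α hα
            · have hres : res α w.1.2 = res α z.1.2 := funext (fun β => ih β.1 β.2)
              funext s
              have hr := hR α s
              have hkey : ∀ v ∈ ⋂ β ∈ Iio α, C β, res α v.2 = res α z.1.2 → v.1 = z.1.1 := by
                intro v hv hvz
                refine hAsep _ (fun β hβ => ?_)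
                have hβα : β < α := hdown α hα β (hAA' hβ)
                refine hdet β v z.1 (mem_iInter₂.1 hv β hβα) (hZmem z β) ?_
                exact congrFun hvz ⟨β, hβα⟩
              have hm : res α z.1.2 ∈ OO0 (f α) α (⋂ β ∈ Iio α, C β) s ∨
                  res α z.1.2 ∈ OO1 (f α) α (⋂ β ∈ Iio α, C β) s := by
                by_cases hlt : f α z.1.1 < (s.1.2 : ℝ)
                · left
                  intro v hv hvz
                  rw [hkey v hv hvz]
                  exact hlt
                · right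
                  intro v hv hvz
                  rw [hkey v hv hvz]
                  have h1 : (s.1.1 : ℝ) < (s.1.2 : ℝ) := by exact_mod_cast s.2
                  exact h1.trans_le (not_lt.1 hlt)
              have hzC := hZmem z α
              have hwC := hZmem w α
              rw [hC α] at hzC hwC
              rcases hr.2.2.2.2.2 _ hm with hV | hV
              · have h1 : z.1.2 α s = false := by
                  cases hb : z.1.2 α s with
                  | false => rfl
                  | true => exact absurd hV ((hzC s).2 hb).1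
                have h2 : w.1.2 α s = false := by
                  cases hb : w.1.2 α s with
                  | false => rfl
                  | true => exact absurd (hres ▸ hV) ((hwC s).2 hb).1
                rw [h1, h2]
              · have h1 : z.1.2 α s = true := by
                  cases hb : z.1.2 α s with
                  | true => rfl
                  | false => exact absurd hV ((hzC s).1 hb).1
                have h2 : w.1.2 α s = true := by
                  cases hb : w.1.2 α s with
                  | true => rfl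
                  | false => exact absurd (hres ▸ hV) ((hwC s).1 hb).1
                rw [h1, h2]
        exact mem_singleton_iff.2 (hinj w z (funext he))
    rw [hfib]
    exact (IsGδ.singleton (ρ z)).preimage hρ
  refine ⟨Z, inferInstance, hZcomp, inferInstance, htd, hfc, fun z => z.1.1,
    continuous_fst.comp continuous_subtype_val, ?_⟩
  intro x
  let G : ∀ α : Ω, (Iio α → Dig) → Dig := fun α m s =>
    if m ∈ (red (OO0 (f α) α (⋂ β ∈ Iio α, C β) s) (OO1 (f α) α (⋂ β ∈ Iio α, C β) s)).2 then true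
    else if f α x ≤ (s.1.2 : ℝ) then false else true
  obtain ⟨e, he⟩ := exists_e G
  have hmem : ∀ α, (x, e) ∈ C α := by
    intro α
    induction α using WellFoundedLT.induction with
    | ind α ih =>
      have hW : (x, e) ∈ ⋂ β ∈ Iio α, C β := mem_iInter₂.2 (fun β hβ => ih β hβ)
      rw [hC α]
      intro s
      have hr := hR α s
      have hes : e α s = G α (res α e) s := congrFun (he α) s
      by_cases hV : res α e ∈
          (red (OO0 (f α) α (⋂ β ∈ Iio α, C β) s) (OO1 (f α) α (⋂ β ∈ Iio α, C β) s)).2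
      · have h1 : e α s = true := by
          rw [hes]
          exact if_pos hV
        refine ⟨fun h2 => ?_, fun _ => ⟨?_, ?_⟩⟩
        · have h2' : e α s = false := h2
          rw [h1] at h2'
          exact absurd h2' (by decide)
        · intro h3
          exact hr.2.2.2.2.1 _ h3 hV
        · exact (hr.2.2.2.1 hV (x, e) hW rfl).le
      · by_cases hle : f α x ≤ (s.1.2 : ℝ)
        · have h1 : e α s = false := by
            rw [hes]
            show (if res α e ∈ _ then true else if f α x ≤ (s.1.2 : ℝ) then false else true) = false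
            rw [if_neg hV, if_pos hle]
          refine ⟨fun _ => ⟨hV, hle⟩, fun h2 => ?_⟩
          have h2' : e α s = true := h2
          rw [h1] at h2'
          exact absurd h2' (by decide)
        · have h1 : e α s = true := by
            rw [hes]
            show (if res α e ∈ _ then true else if f α x ≤ (s.1.2 : ℝ) then false else true) = true
            rw [if_neg hV, if_neg hle]
          refine ⟨fun h2 => ?_, fun _ => ⟨?_, ?_⟩⟩
          · have h2' : e α s = false := h2
            rw [h1] at h2'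
            exact absurd h2' (by decide)
          · intro h3
            exact hle (hr.2.2.1 h3 (x, e) hW rfl).le
          · have h4 : (s.1.1 : ℝ) < (s.1.2 : ℝ) := by exact_mod_cast s.2
            exact (h4.trans (not_le.1 hle)).le
  exact ⟨⟨(x, e), mem_iInter.2 hmem⟩, rfl⟩

/-- First countable compacta with a base of size at most `ℵ₁`. -/
theorem zi_weight {X : Type} [TopologicalSpace X] [CompactSpace X] [T2Space X]
    [FirstCountableTopology X] (B : Set (Set X)) (hB : TopologicalSpace.IsTopologicalBasis B)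
    (hc : Cardinal.mk B ≤ Cardinal.aleph 1) : ZI X := by
  classical
  let Ω : Type := (Cardinal.aleph 1).ord.ToType
  have hΩ : ∀ α : Ω, (Iio α).Countable := by
    intro α
    rw [Cardinal.countable_iff_lt_aleph_one]
    exact Cardinal.mk_Iio_ord_toType α
  have hcard : Cardinal.mk (B × B) ≤ Cardinal.mk Ω := by
    have h1 : Cardinal.mk Ω = Cardinal.aleph 1 := Cardinal.mk_ord_toType _
    rw [h1, Cardinal.mk_prod, Cardinal.lift_id]
    calc Cardinal.mk B * Cardinal.mk B ≤ Cardinal.aleph 1 * Cardinal.aleph 1 :=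
          mul_le_mul' hc hc
      _ = Cardinal.aleph 1 := Cardinal.mul_eq_self (Cardinal.aleph0_le_aleph 1)
  obtain ⟨ι⟩ : Nonempty ((B × B) ↪ Ω) := hcard
  have hury : ∀ p : B × B, ∃ g : X → ℝ, Continuous g ∧
      (Disjoint (closure p.1.1) (closure p.2.1) →
        (∀ x ∈ p.1.1, g x = 0) ∧ (∀ x ∈ p.2.1, g x = 1)) := by
    intro p
    by_cases h : Disjoint (closure p.1.1) (closure p.2.1)
    · obtain ⟨g, hg0, hg1, _⟩ := exists_continuous_zero_one_of_isClosed isClosed_closure
        isClosed_closure h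
      exact ⟨g, g.continuous, fun _ => ⟨fun x hx => hg0 (subset_closure hx),
        fun x hx => hg1 (subset_closure hx)⟩⟩
    · exact ⟨fun _ => 0, continuous_const, fun h' => absurd h' h⟩
  choose g hg hg' using hury
  let f : Ω → X → ℝ := fun α => if h : ∃ p, ι p = α then g h.choose else fun _ => 0
  have hfι : ∀ p, f (ι p) = g p := by
    intro p
    have h : ∃ q, ι q = ι p := ⟨p, rfl⟩
    simp only [f, dif_pos h]
    rw [ι.injective h.choose_spec]
  refine omega_main hΩ f (fun α => ?_) (fun x y hxy => ?_)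
  · by_cases h : ∃ p, ι p = α
    · simp only [f, dif_pos h]
      exact hg _
    · simp only [f, dif_neg h]
      exact continuous_const
  · by_contra hne
    obtain ⟨u, v, hu, hv, hxu, hyv, huv⟩ := t2_separation hne
    obtain ⟨F1, hF1, hF1c, hF1u⟩ := exists_mem_nhds_isClosed_subset (hu.mem_nhds hxu)
    obtain ⟨F2, hF2, hF2c, hF2v⟩ := exists_mem_nhds_isClosed_subset (hv.mem_nhds hyv)
    obtain ⟨b1, hb1, hxb1, hb1F⟩ := hB.mem_nhds_iff.1 hF1
    obtain ⟨b2, hb2, hyb2, hb2F⟩ := hB.mem_nhds_iff.1 hF2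
    have hdis : Disjoint (closure b1) (closure b2) := by
      refine huv.mono ?_ ?_
      · exact (closure_minimal hb1F hF1c).trans hF1u
      · exact (closure_minimal hb2F hF2c).trans hF2v
    have h1 := hg' (⟨b1, hb1⟩, ⟨b2, hb2⟩) hdis
    have h2 := hxy (ι (⟨b1, hb1⟩, ⟨b2, hb2⟩))
    rw [hfι, h1.1 x hxb1, h1.2 y hyb2] at h2
    exact zero_ne_one h2

end HomC
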