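import Pool.Agent.HomC.Dup

/-!
# Uniform Eberlein compacta of weight at most the continuum

If `Γ` has size at most the continuum then every compact subspace of `c₀(Γ)` in which, for every
`ε`, the number of coordinates of absolute value above `ε` is bounded uniformly, is a continuous
image of a first countable totally disconnected compactum.
-/

open Set Topology Filter

namespace HomC

/-- Subsets of `Γ` with at most `N` elements. -/
def VSet (Γ : Type) (N : ℕ) : Set (Γ → Bool) :=
  {e | ∀ F : Finset Γ, (∀ γ ∈ F, e γ = true) → F.card ≤ N}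

theorem zi_V (Γ : Type) (ι : Γ → (ℕ → Bool)) (hι : Function.Injective ι) (N : ℕ) :
    ZI (VSet Γ N) := by
  classical
  have h1 : ZI (ℕ → OnePoint (Disc (ℕ → Bool))) := zi_pi (fun _ => zi_onePoint (ℕ → Bool))
  let P : (ℕ → OnePoint (Disc (ℕ → Bool))) → Γ → Prop := fun w γ =>
    ∃ i ∈ Iio N, w i = OnePoint.some (toDisc (ι γ))
  let Ψ : (ℕ → OnePoint (Disc (ℕ → Bool))) → (Γ → Bool) := fun w γ => decide (P w γ)
  have hmem : ∀ w, Ψ w ∈ VSet Γ N := by
    intro w F hF
    have h2 : ∀ γ ∈ F, ∃ i ∈ Iio N, w i = OnePoint.some (toDisc (ι γ)) := by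
      intro γ hγ
      exact of_decide_eq_true (hF γ hγ)
    choose! g hg1 hg2 using h2
    have h3 : F.card ≤ (Finset.range N).card := by
      refine Finset.card_le_card_of_injOn g (fun γ hγ => ?_) ?_
      · exact Finset.mem_coe.2 (Finset.mem_range.2 (hg1 γ hγ))
      · intro γ hγ δ hδ hgd
        have h4 := hg2 γ hγ
        have h5 := hg2 δ hδ
        rw [hgd, h5] at h4
        have h6 : toDisc (ι δ) = toDisc (ι γ) := OnePoint.coe_injective h4
        exact (hι h6).symm
    rwa [Finset.card_range] at h3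
  have hcont : Continuous Ψ := by
    refine continuous_pi (fun γ => ?_)
    have hcl : IsClopen {w : ℕ → OnePoint (Disc (ℕ → Bool)) | P w γ} := by
      have : {w : ℕ → OnePoint (Disc (ℕ → Bool)) | P w γ} =
          ⋃ i ∈ Iio N, (fun w => w i) ⁻¹' {OnePoint.some (toDisc (ι γ))} := by
        ext w
        constructor
        · rintro ⟨i, hi, h⟩
          exact mem_iUnion₂.2 ⟨i, hi, h⟩
        · intro h
          obtain ⟨i, hi, h⟩ := mem_iUnion₂.1 h
          exact ⟨i, hi, h⟩
      rw [this]
      refine (finite_Iio N).isClopen_biUnion (fun i _ => ?_)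
      have h7 : IsClopen ({(OnePoint.some (toDisc (ι γ)) : OnePoint (Disc (ℕ → Bool)))} :
          Set (OnePoint (Disc (ℕ → Bool)))) := ⟨isClosed_singleton, isOpen_coe _⟩
      exact h7.preimage (continuous_apply i)
    rw [continuous_discrete_rng]
    intro b
    cases b with
    | true =>
      have : (fun w => Ψ w γ) ⁻¹' {true} = {w | P w γ} := by
        ext w
        constructor
        · intro h
          exact of_decide_eq_true h
        · intro h
          exact decide_eq_true h
      rw [this]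
      exact hcl.isOpen
    | false =>
      have : (fun w => Ψ w γ) ⁻¹' {false} = {w | P w γ}ᶜ := by
        ext w
        constructor
        · intro h
          exact of_decide_eq_false h
        · intro h
          exact decide_eq_false h
      rw [this]
      exact hcl.compl.isOpen
  refine zi_image h1 (fun w => (⟨Ψ w, hmem w⟩ : VSet Γ N)) (hcont.subtype_mk _) ?_
  rintro ⟨e, he⟩
  -- the support of `e` is finite
  have hfin : {γ | e γ = true}.Finite := by
    by_contra hinf
    obtain ⟨F, hF, hFc⟩ := Set.Infinite.exists_subset_card_eq hinf (N + 1)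
    have := he F (fun γ hγ => hF hγ)
    omega
  have hcard : hfin.toFinset.card ≤ N := he _ (fun γ hγ => hfin.mem_toFinset.1 hγ)
  let eq := hfin.toFinset.equivFin
  let w : ℕ → OnePoint (Disc (ℕ → Bool)) := fun i =>
    if h : i < hfin.toFinset.card then OnePoint.some (toDisc (ι (eq.symm ⟨i, h⟩).1))
    else OnePoint.infty
  refine ⟨w, ?_⟩
  apply Subtype.ext
  funext γ
  show decide (P w γ) = e γ
  cases hb : e γ with
  | true =>
    apply decide_eq_true
    have hγ : γ ∈ hfin.toFinset := hfin.mem_toFinset.2 hb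
    refine ⟨(eq ⟨γ, hγ⟩).1, (eq ⟨γ, hγ⟩).2.trans_le hcard, ?_⟩
    simp only [w, dif_pos (eq ⟨γ, hγ⟩).2, Fin.eta, Equiv.symm_apply_apply]
  | false =>
    apply decide_eq_false
    rintro ⟨i, hi, h⟩
    by_cases hic : i < hfin.toFinset.card
    · simp only [w, dif_pos hic] at h
      have h6 : toDisc (ι (eq.symm ⟨i, hic⟩).1) = toDisc (ι γ) := OnePoint.coe_injective h
      have h7 := hι h6
      have h8 := hfin.mem_toFinset.1 (eq.symm ⟨i, hic⟩).2
      rw [h7] at h8
      have h9 : e γ = true := h8
      rw [hb] at h9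
      exact absurd h9 (by decide)
    · simp only [w, dif_neg hic] at h
      exact OnePoint.infty_ne_coe _ h

/-- Greedy signed binary digits. -/
theorem digits (a : ℝ) (ha : |a| ≤ 1) : ∃ p q : ℕ → Bool,
    (∀ n : ℕ, |a - ∑ k ∈ Finset.range n,
      ((if p k = true then (1 : ℝ) else 0) - (if q k = true then (1 : ℝ) else 0)) *
        (1 / 2 : ℝ) ^ (k + 1)| ≤ (1 / 2 : ℝ) ^ n) ∧
    (∀ n, (p n = true ∨ q n = true) → (1 / 2 : ℝ) ^ (n + 1) < |a|) := by
  classical
  let P : ℝ → ℕ → Bool := fun r n => decide ((1 / 2 : ℝ) ^ (n + 1) < r)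
  let Q : ℝ → ℕ → Bool := fun r n => decide (r < -(1 / 2 : ℝ) ^ (n + 1))
  have hPt : ∀ (r : ℝ) (n : ℕ), (1 / 2 : ℝ) ^ (n + 1) < r → P r n = true := by
    intro r n h
    simp only [P, decide_eq_true_eq]
    exact h
  have hPf : ∀ (r : ℝ) (n : ℕ), ¬ (1 / 2 : ℝ) ^ (n + 1) < r → P r n = false := by
    intro r n h
    simp only [P, decide_eq_false_iff_not]
    exact h
  have hQt : ∀ (r : ℝ) (n : ℕ), r < -(1 / 2 : ℝ) ^ (n + 1) → Q r n = true := by
    intro r n h
    simp only [Q, decide_eq_true_eq]
    exact h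
  have hQf : ∀ (r : ℝ) (n : ℕ), ¬ r < -(1 / 2 : ℝ) ^ (n + 1) → Q r n = false := by
    intro r n h
    simp only [Q, decide_eq_false_iff_not]
    exact h
  have hPr : ∀ (r : ℝ) (n : ℕ), P r n = true → (1 / 2 : ℝ) ^ (n + 1) < r := by
    intro r n h
    simp only [P, decide_eq_true_eq] at h
    exact h
  have hQr : ∀ (r : ℝ) (n : ℕ), Q r n = true → r < -(1 / 2 : ℝ) ^ (n + 1) := by
    intro r n h
    simp only [Q, decide_eq_true_eq] at h
    exact h
  let stp : ℕ → ℝ → ℝ := fun n r => r -
    ((if P r n = true then (1 : ℝ) else 0) - (if Q r n = true then (1 : ℝ) else 0)) *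
        (1 / 2 : ℝ) ^ (n + 1)
  let r : ℕ → ℝ := fun n => Nat.rec a (fun n x => stp n x) n
  have hr0 : r 0 = a := rfl
  have hrs : ∀ n, r (n + 1) = stp n (r n) := fun n => rfl
  have hpow : ∀ n : ℕ, (1 / 2 : ℝ) ^ n = 2 * (1 / 2 : ℝ) ^ (n + 1) := by
    intro n
    rw [pow_succ]
    ring
  have hpos : ∀ n : ℕ, (0 : ℝ) < (1 / 2 : ℝ) ^ n := fun n => by positivity
  have hb : ∀ n, |r n| ≤ (1 / 2 : ℝ) ^ n := by
    intro n
    induction n with
    | zero => rw [hr0, pow_zero]; exact ha
    | succ n ih =>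
      rw [hrs]
      have h1 := hpow n
      have h2 := hpos (n + 1)
      rw [abs_le] at ih ⊢
      rcases lt_or_ge ((1 / 2 : ℝ) ^ (n + 1)) (r n) with hP | hP
      · have hQ : ¬ r n < -(1 / 2 : ℝ) ^ (n + 1) := by
          intro h
          linarith
        have hP' : P (r n) n = true := hPt _ _ hP
        have hQ' : Q (r n) n = false := hQf _ _ hQ
        simp only [stp, hP', hQ', if_true, Bool.false_eq_true, if_false]
        constructor <;> linarith
      · have hP' : P (r n) n = false := hPf _ _ (not_lt.2 hP)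
        rcases lt_or_ge (r n) (-(1 / 2 : ℝ) ^ (n + 1)) with hQ | hQ
        · have hQ' : Q (r n) n = true := hQt _ _ hQ
          simp only [stp, hP', hQ', if_true, Bool.false_eq_true, if_false]
          constructor <;> linarith
        · have hQ' : Q (r n) n = false := hQf _ _ (not_lt.2 hQ)
          simp only [stp, hP', hQ', Bool.false_eq_true, if_false]
          constructor <;> linarith
  refine ⟨fun n => P (r n) n, fun n => Q (r n) n, ?_, ?_⟩
  · intro n
    have hsum : a - ∑ k ∈ Finset.range n,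
        ((if P (r k) k = true then (1 : ℝ) else 0) - (if Q (r k) k = true then (1 : ℝ) else 0)) *
        (1 / 2 : ℝ) ^ (k + 1) = r n := by
      induction n with
      | zero =>
        rw [Finset.sum_range_zero, sub_zero]
        exact hr0.symm
      | succ n ih =>
        rw [Finset.sum_range_succ, ← sub_sub, ih, hrs]
    rw [hsum]
    exact hb n
  · intro n hn
    by_contra hle
    have hle' : |a| ≤ (1 / 2 : ℝ) ^ (n + 1) := not_lt.1 hle
    have hmono : ∀ m, m ≤ n → (1 / 2 : ℝ) ^ (n + 1) ≤ (1 / 2 : ℝ) ^ (m + 1) := by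
      intro m hm
      exact pow_le_pow_of_le_one (by norm_num) (by norm_num) (Nat.succ_le_succ hm)
    have hconst : ∀ m, m ≤ n → r m = a := by
      intro m
      induction m with
      | zero => intro _; exact hr0
      | succ m ih =>
        intro hm
        have h3 := ih ((Nat.le_succ m).trans hm)
        have h4 := hle'.trans (hmono m ((Nat.le_succ m).trans hm))
        rw [abs_le] at h4
        rw [hrs, h3]
        have hP : ¬ (1 / 2 : ℝ) ^ (m + 1) < a := not_lt.2 h4.2
        have hQ : ¬ a < -(1 / 2 : ℝ) ^ (m + 1) := not_lt.2 h4.1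
        have hP' : P a m = false := hPf _ _ hP
        have hQ' : Q a m = false := hQf _ _ hQ
        simp only [stp, hP', hQ', Bool.false_eq_true, if_false]
        ring
    have h5 := hconst n le_rfl
    rw [abs_le] at hle'
    rcases hn with hn | hn
    · have h6 : (1 / 2 : ℝ) ^ (n + 1) < r n := hPr _ _ hn
      rw [h5] at h6
      linarith
    · have h6 : r n < -(1 / 2 : ℝ) ^ (n + 1) := hQr _ _ hn
      rw [h5] at h6
      linarith

/-- Uniform Eberlein compacta of weight at most the continuum. -/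
theorem zi_ue {X : Type} [TopologicalSpace X] [CompactSpace X] [T2Space X] {Γ : Type}
    (ι : Γ → (ℕ → Bool)) (hι : Function.Injective ι) (φ : X → Γ → ℝ) (hφ : Continuous φ)
    (hinj : Function.Injective φ) (hbd : ∀ x γ, |φ x γ| ≤ 1)
    (hu : ∀ ε : ℝ, 0 < ε → ∃ N : ℕ, ∀ x, ∀ F : Finset Γ, (∀ γ ∈ F, ε < |φ x γ|) → F.card ≤ N) :
    ZI X := by
  classical
  have hφγ : ∀ γ, Continuous (fun x => φ x γ) := fun γ => (continuous_apply γ).comp hφ
  choose N hN using fun n : ℕ => hu ((1 / 2 : ℝ) ^ (n + 1)) (by positivity)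
  let W : Type := (n : ℕ) → (ℕ → VSet Γ (N n))
  have hWn : ∀ n, ZI (ℕ → VSet Γ (N n)) := fun n => zi_pi (fun _ => zi_V Γ ι hι (N n))
  have hW : ZI W := zi_pi hWn
  have hVc : ∀ M : ℕ, CompactSpace (VSet Γ M) := by
    intro M
    refine isCompact_iff_compactSpace.1 (IsClosed.isCompact ?_)
    have : VSet Γ M = ⋂ F : Finset Γ, {e : Γ → Bool | (∀ γ ∈ F, e γ = true) → F.card ≤ M} := by
      ext e
      rw [mem_iInter]
      rfl
    rw [this]
    refine isClosed_iInter (fun F => ?_)
    by_cases hF : F.card ≤ M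
    · have : {e : Γ → Bool | (∀ γ ∈ F, e γ = true) → F.card ≤ M} = univ :=
        eq_univ_of_forall (fun e _ => hF)
      rw [this]
      exact isClosed_univ
    · have : {e : Γ → Bool | (∀ γ ∈ F, e γ = true) → F.card ≤ M} =
          {e : Γ → Bool | ∀ γ ∈ F, e γ = true}ᶜ := by
        ext e
        constructor
        · intro h h2
          exact hF (h h2)
        · intro h h2
          exact absurd h2 h
      rw [this]
      refine IsOpen.isClosed_compl ?_
      have h3 : {e : Γ → Bool | ∀ γ ∈ F, e γ = true} =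
          (F : Set Γ).pi (fun _ => ({true} : Set Bool)) := rfl
      rw [h3]
      exact isOpen_set_pi F.finite_toSet (fun γ _ => isOpen_discrete _)
  let dg : W → Γ → ℕ → ℝ := fun w γ k =>
    ((if (w k 0).1 γ = true then (1 : ℝ) else 0) - (if (w k 1).1 γ = true then (1 : ℝ) else 0)) *
        (1 / 2 : ℝ) ^ (k + 1)
  have hdg : ∀ γ k, Continuous (fun w => dg w γ k) := by
    intro γ k
    have h1 : ∀ j : ℕ, Continuous (fun w : W => (if (w k j).1 γ = true then (1 : ℝ) else 0)) := by
      intro j
      have h2 : Continuous (fun w : W => (w k j).1 γ) :=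
        (continuous_apply γ).comp (continuous_subtype_val.comp
          ((continuous_apply j).comp (continuous_apply k)))
      have h3 : Continuous (fun b : Bool => (if b = true then (1 : ℝ) else 0)) :=
        continuous_of_discreteTopology
      exact h3.comp h2
    exact ((h1 0).sub (h1 1)).mul continuous_const
  let Z : Set (X × W) := {z | ∀ γ, ∀ n : ℕ,
    |φ z.1 γ - ∑ k ∈ Finset.range n, dg z.2 γ k| ≤ (1 / 2 : ℝ) ^ n}
  have hZc : IsClosed Z := by
    have : Z = ⋂ γ : Γ, ⋂ n : ℕ, {z : X × W |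
        |φ z.1 γ - ∑ k ∈ Finset.range n, dg z.2 γ k| ≤ (1 / 2 : ℝ) ^ n} := by
      ext z
      rw [mem_iInter]
      constructor
      · intro h γ
        exact mem_iInter.2 (fun n => h γ n)
      · intro h γ n
        exact mem_iInter.1 (h γ) n
    rw [this]
    refine isClosed_iInter (fun γ => isClosed_iInter (fun n => ?_))
    refine isClosed_le (Continuous.abs (((hφγ γ).comp continuous_fst).sub ?_)) continuous_const
    exact continuous_finsetSum _ (fun k _ => (hdg γ k).comp continuous_snd)
  have hZcomp : CompactSpace Z := isCompact_iff_compactSpace.1 hZc.isCompact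
  let π : Z → W := fun z => z.1.2
  have hπ : Continuous π := continuous_snd.comp continuous_subtype_val
  have hπi : Function.Injective π := by
    intro z w hzw
    have hzw' : z.1.2 = w.1.2 := hzw
    apply Subtype.ext
    refine Prod.ext (hinj (funext (fun γ => ?_))) hzw'
    by_contra hne
    have hpos : 0 < |φ z.1.1 γ - φ w.1.1 γ| := abs_pos.2 (sub_ne_zero.2 hne)
    obtain ⟨n, hn⟩ := exists_pow_lt_of_lt_one (half_pos hpos) (by norm_num : (1 / 2 : ℝ) < 1)
    have h1 := z.2 γ n
    have h2 := w.2 γ n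
    rw [← hzw'] at h2
    have h3 : |φ z.1.1 γ - φ w.1.1 γ| ≤ (1 / 2 : ℝ) ^ n + (1 / 2 : ℝ) ^ n := by
      have h4 : φ z.1.1 γ - φ w.1.1 γ = (φ z.1.1 γ - ∑ k ∈ Finset.range n, dg z.1.2 γ k) -
          (φ w.1.1 γ - ∑ k ∈ Finset.range n, dg z.1.2 γ k) := by ring
      rw [h4]
      exact (abs_sub _ _).trans (add_le_add h1 h2)
    linarith
  have hZ : ZI Z := zi_closed hW π (hπ.isClosedEmbedding hπi)
  refine zi_image hZ (fun z => z.1.1) (continuous_fst.comp continuous_subtype_val) ?_
  intro x
  choose p q hpq1 hpq2 using fun γ => digits (φ x γ) (hbd x γ)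
  have hmemp : ∀ n, (fun γ => p γ n) ∈ VSet Γ (N n) := by
    intro n F hF
    exact hN n x F (fun γ hγ => hpq2 γ n (Or.inl (hF γ hγ)))
  have hmemq : ∀ n, (fun γ => q γ n) ∈ VSet Γ (N n) := by
    intro n F hF
    exact hN n x F (fun γ hγ => hpq2 γ n (Or.inr (hF γ hγ)))
  let w : W := fun n j => if j = 0 then ⟨_, hmemp n⟩ else ⟨_, hmemq n⟩
  refine ⟨⟨(x, w), fun γ n => ?_⟩, rfl⟩
  exact hpq1 γ n

end HomC
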